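import Pool.Agent.Lib.MP_0d9be2_nt.Defs

/-!
# MP_0d9be2_nt: convergence of the Euler product for `Re s > 2`
-/

set_option autoImplicit false

open scoped NumberField
open IsDedekindDomain

namespace Pool.Agent.MP_0d9be2.H15

variable {K : Type} [Field K] [NumberField K]

/-- The rational prime below `p`. -/
noncomputable def ell (p : HeightOneSpectrum (𝓞 K)) : ℕ :=
  Ideal.absNorm (p.asIdeal.under ℤ)

theorem ell_prime (p : HeightOneSpectrum (𝓞 K)) : (ell p).Prime := by
  haveI : NeZero p.asIdeal := ⟨p.ne_bot⟩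
  exact Nat.absNorm_under_prime p.asIdeal

theorem absNorm_pos (p : HeightOneSpectrum (𝓞 K)) : 0 < Ideal.absNorm p.asIdeal :=
  Nat.pos_of_ne_zero (by rw [Ne, Ideal.absNorm_eq_zero_iff]; exact p.ne_bot)

theorem ell_le (p : HeightOneSpectrum (𝓞 K)) : ell p ≤ Ideal.absNorm p.asIdeal :=
  Nat.le_of_dvd (absNorm_pos p) (Int.absNorm_under_dvd_absNorm p.asIdeal)

theorem two_le (p : HeightOneSpectrum (𝓞 K)) : 2 ≤ Ideal.absNorm p.asIdeal :=
  (ell_prime p).two_le.trans (ell_le p)

theorem fiber_card [DecidableEq (HeightOneSpectrum (𝓞 K))]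
    (F : Finset (HeightOneSpectrum (𝓞 K))) (b : ℕ) (hb : ∃ p ∈ F, ell p = b) :
    (F.filter fun p => ell p = b).card ≤ Module.finrank ℚ K := by
  classical
  obtain ⟨p₀, -, h₀⟩ := hb
  have hbp : b.Prime := h₀ ▸ ell_prime p₀
  have hb0 : (Ideal.span {(b : ℤ)} : Ideal ℤ) ≠ ⊥ := by
    rw [Ne, Ideal.span_singleton_eq_bot]
    exact_mod_cast hbp.ne_zero
  haveI : (Ideal.span {(b : ℤ)} : Ideal ℤ).IsPrime := by
    rw [Ideal.span_singleton_prime (by exact_mod_cast hbp.ne_zero)]
    exact Nat.prime_iff_prime_int.mp hbp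
  haveI : (Ideal.span {(b : ℤ)} : Ideal ℤ).IsMaximal :=
    Ideal.IsPrime.isMaximal inferInstance hb0
  refine le_trans ?_ (Ideal.card_primesOverFinset_le_finrank (𝓞 K) ℚ K (p := Ideal.span {(b : ℤ)}) hb0)
  rw [← Finset.card_image_of_injOn (f := fun p : HeightOneSpectrum (𝓞 K) => p.asIdeal)]
  · refine Finset.card_le_card ?_
    intro I hI
    rw [Finset.mem_image] at hI
    obtain ⟨p, hp, rfl⟩ := hI
    rw [Finset.mem_filter] at hp
    rw [IsDedekindDomain.mem_primesOverFinset_iff hb0]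
    refine ⟨p.isPrime, ⟨?_⟩⟩
    have := Int.ideal_span_absNorm_eq_self (p.asIdeal.under ℤ)
    rw [← this]
    congr 2
    have h2 := hp.2
    unfold ell at h2
    exact_mod_cast h2.symm
  · intro p _ q _ h
    exact HeightOneSpectrum.ext h

theorem summable_norm {t : ℝ} (ht : 1 < t) :
    Summable fun p : HeightOneSpectrum (𝓞 K) => (Ideal.absNorm p.asIdeal : ℝ) ^ (-t) := by
  classical
  have hs : Summable fun n : ℕ => (n : ℝ) ^ (-t) := by
    rw [Real.summable_nat_rpow]; linarith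
  refine summable_of_sum_le (c := Module.finrank ℚ K * ∑' n : ℕ, (n : ℝ) ^ (-t))
    (fun p => by positivity) ?_
  intro F
  calc ∑ p ∈ F, (Ideal.absNorm p.asIdeal : ℝ) ^ (-t)
      ≤ ∑ p ∈ F, (ell p : ℝ) ^ (-t) := by
        refine Finset.sum_le_sum fun p _ => ?_
        refine Real.rpow_le_rpow_of_nonpos ?_ ?_ (by linarith)
        · exact_mod_cast (ell_prime p).pos
        · exact_mod_cast ell_le p
    _ = ∑ b ∈ F.image ell, (F.filter fun p => ell p = b).card • (b : ℝ) ^ (-t) :=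
        Finset.sum_comp (fun b : ℕ => (b : ℝ) ^ (-t)) ell
    _ ≤ ∑ b ∈ F.image ell, (Module.finrank ℚ K : ℝ) * (b : ℝ) ^ (-t) := by
        refine Finset.sum_le_sum fun b hb => ?_
        rw [nsmul_eq_mul]
        refine mul_le_mul_of_nonneg_right ?_ (by positivity)
        rw [Finset.mem_image] at hb
        exact_mod_cast fiber_card F b hb
    _ = Module.finrank ℚ K * ∑ b ∈ F.image ell, (b : ℝ) ^ (-t) := by rw [Finset.mul_sum]
    _ ≤ Module.finrank ℚ K * ∑' n : ℕ, (n : ℝ) ^ (-t) := by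
        refine mul_le_mul_of_nonneg_left ?_ (by positivity)
        exact hs.sum_le_tsum _ (fun _ _ => by positivity)

/-- The number of affine points is at most twice the norm. -/
theorem affPts_le (W : WeierstrassCurve (𝓞 K)) (p : HeightOneSpectrum (𝓞 K)) :
    affPts W p ≤ 2 * Ideal.absNorm p.asIdeal := by
  classical
  letI : Field (𝓞 K ⧸ p.asIdeal) := Ideal.Quotient.field p.asIdeal
  have hN : Ideal.absNorm p.asIdeal = Nat.card (𝓞 K ⧸ p.asIdeal) := by
    rw [Ideal.absNorm_apply, Submodule.cardQuot_apply]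
  haveI : Finite (𝓞 K ⧸ p.asIdeal) := by
    refine Nat.finite_of_card_ne_zero ?_
    rw [← hN]; exact (absNorm_pos p).ne'
  letI : Fintype (𝓞 K ⧸ p.asIdeal) := Fintype.ofFinite _
  set k := 𝓞 K ⧸ p.asIdeal
  set V := W.map (Ideal.Quotient.mk p.asIdeal)
  unfold affPts
  rw [Nat.card_eq_fintype_card, Fintype.card_subtype, hN, Nat.card_eq_fintype_card]
  set s := Finset.univ.filter fun xy : k × k => V.toAffine.Equation xy.1 xy.2
  have h1 : s.card ≤ 2 * (s.image Prod.fst).card := by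
    refine Finset.card_le_mul_card_image _ _ ?_
    intro x _
    set q : Polynomial k := Polynomial.X ^ 2 + Polynomial.C (V.a₁ * x + V.a₃) * Polynomial.X
      + Polynomial.C (-(x ^ 3 + V.a₂ * x ^ 2 + V.a₄ * x + V.a₆))
    have hdeg : q.natDegree = 2 := by
      simp only [q]
      compute_degree!
    have hq : q ≠ 0 := by
      intro h
      rw [h] at hdeg
      simp at hdeg
    calc (s.filter fun xy => xy.1 = x).card
        ≤ (q.roots.toFinset.image fun y => (x, y)).card := by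
          refine Finset.card_le_card ?_
          rintro ⟨x', y⟩ hxy
          simp only [s, Finset.mem_filter, Finset.mem_univ, true_and] at hxy
          obtain ⟨he, rfl⟩ := hxy
          rw [Finset.mem_image]
          refine ⟨y, ?_, rfl⟩
          rw [Multiset.mem_toFinset, Polynomial.mem_roots hq, Polynomial.IsRoot.def]
          rw [WeierstrassCurve.Affine.equation_iff] at he
          simp only [q, Polynomial.eval_add, Polynomial.eval_pow, Polynomial.eval_X,
            Polynomial.eval_mul, Polynomial.eval_C]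
          linear_combination he
      _ ≤ q.roots.toFinset.card := Finset.card_image_le
      _ ≤ Multiset.card q.roots := Multiset.toFinset_card_le _
      _ ≤ q.natDegree := Polynomial.card_roots' q
      _ = 2 := hdeg
  refine h1.trans ?_
  refine Nat.mul_le_mul_left _ ?_
  exact (Finset.card_le_univ _)

/-- `factor = (1 + dev)⁻¹`. -/
noncomputable def dev (W : WeierstrassCurve (𝓞 K)) (p : HeightOneSpectrum (𝓞 K)) (s : ℂ) : ℂ :=
  (factor W p s)⁻¹ - 1

theorem factor_eq (W : WeierstrassCurve (𝓞 K)) (p : HeightOneSpectrum (𝓞 K)) (s : ℂ) :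
    factor W p s = (1 + dev W p s)⁻¹ := by
  unfold dev
  rw [add_sub_cancel, inv_inv]

theorem norm_dev_le (W : WeierstrassCurve (𝓞 K)) (p : HeightOneSpectrum (𝓞 K)) {s : ℂ}
    (hs : 2 < s.re) :
    ‖dev W p s‖ ≤ (Ideal.absNorm p.asIdeal : ℝ) ^ (1 - s.re)
      + (Ideal.absNorm p.asIdeal : ℝ) ^ (1 - 2 * s.re) := by
  classical
  set N := Ideal.absNorm p.asIdeal
  have hN0 : 0 < N := absNorm_pos p
  have hNr : (0 : ℝ) < N := by exact_mod_cast hN0
  have hdev : dev W p s = -(((N : ℂ) - (affPts W p : ℂ)) * (N : ℂ) ^ (-s))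
      + (if W.Δ ∈ p.asIdeal then 0 else (N : ℂ)) * (N : ℂ) ^ (-2 * s) := by
    unfold dev factor
    rw [inv_inv]
    ring
  have h1 : ‖((N : ℂ) - (affPts W p : ℂ))‖ ≤ N := by
    have : ((N : ℂ) - (affPts W p : ℂ)) = (((N : ℝ) - (affPts W p : ℝ) : ℝ) : ℂ) := by
      push_cast; rfl
    rw [this, Complex.norm_real, Real.norm_eq_abs, abs_le]
    have h2 : (affPts W p : ℝ) ≤ 2 * N := by exact_mod_cast affPts_le W p
    have h3 : (0 : ℝ) ≤ (affPts W p : ℝ) := Nat.cast_nonneg _
    constructor <;> linarith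
  have hn1 : ‖(N : ℂ) ^ (-s)‖ = (N : ℝ) ^ (-s.re) := by
    rw [Complex.norm_natCast_cpow_of_pos hN0, Complex.neg_re]
  have hn2 : ‖(N : ℂ) ^ (-2 * s)‖ = (N : ℝ) ^ (-2 * s.re) := by
    rw [Complex.norm_natCast_cpow_of_pos hN0]
    congr 1
    simp
  have hn3 : ‖(if W.Δ ∈ p.asIdeal then (0 : ℂ) else (N : ℂ))‖ ≤ N := by
    split_ifs
    · simp
    · simp
  rw [hdev]
  refine (norm_add_le _ _).trans ?_
  rw [norm_neg, norm_mul, norm_mul, hn1, hn2]
  have e1 : (N : ℝ) ^ (1 - s.re) = N * (N : ℝ) ^ (-s.re) := by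
    rw [sub_eq_add_neg, Real.rpow_add hNr, Real.rpow_one]
  have e2 : (N : ℝ) ^ (1 - 2 * s.re) = N * (N : ℝ) ^ (-2 * s.re) := by
    rw [show (1 - 2 * s.re) = 1 + (-2 * s.re) by ring, Real.rpow_add hNr, Real.rpow_one]
  rw [e1, e2]
  gcongr

theorem norm_dev_lt (W : WeierstrassCurve (𝓞 K)) (p : HeightOneSpectrum (𝓞 K)) {s : ℂ}
    (hs : 2 < s.re) : ‖dev W p s‖ < 1 := by
  refine lt_of_le_of_lt (norm_dev_le W p hs) ?_
  set N := Ideal.absNorm p.asIdeal
  have hN : (2 : ℝ) ≤ N := by exact_mod_cast two_le p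
  have h1 : (N : ℝ) ^ (1 - s.re) < 1 / 2 := by
    calc (N : ℝ) ^ (1 - s.re) ≤ (2 : ℝ) ^ (1 - s.re) :=
          Real.rpow_le_rpow_of_nonpos (by norm_num) hN (by linarith)
      _ < (2 : ℝ) ^ (-1 : ℝ) := Real.rpow_lt_rpow_of_exponent_lt (by norm_num) (by linarith)
      _ = 1 / 2 := by rw [Real.rpow_neg_one]; norm_num
  have h2 : (N : ℝ) ^ (1 - 2 * s.re) < 1 / 2 := by
    calc (N : ℝ) ^ (1 - 2 * s.re) ≤ (2 : ℝ) ^ (1 - 2 * s.re) :=
          Real.rpow_le_rpow_of_nonpos (by norm_num) hN (by linarith)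
      _ < (2 : ℝ) ^ (-1 : ℝ) := Real.rpow_lt_rpow_of_exponent_lt (by norm_num) (by linarith)
      _ = 1 / 2 := by rw [Real.rpow_neg_one]; norm_num
  linarith

theorem one_add_dev_ne (W : WeierstrassCurve (𝓞 K)) (p : HeightOneSpectrum (𝓞 K)) {s : ℂ}
    (hs : 2 < s.re) : 1 + dev W p s ≠ 0 := by
  intro h
  have h1 : dev W p s = -1 := by linear_combination h
  have h2 := norm_dev_lt W p hs
  rw [h1] at h2
  simp at h2

theorem summable_dev (W : HeightOneSpectrum (𝓞 K) → WeierstrassCurve (𝓞 K)) {s : ℂ}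
    (hs : 2 < s.re) : Summable fun p : HeightOneSpectrum (𝓞 K) => ‖dev (W p) p s‖ := by
  have h1 : Summable fun p : HeightOneSpectrum (𝓞 K) =>
      (Ideal.absNorm p.asIdeal : ℝ) ^ (1 - s.re) := by
    have := summable_norm (K := K) (t := s.re - 1) (by linarith)
    simpa using this
  have h2 : Summable fun p : HeightOneSpectrum (𝓞 K) =>
      (Ideal.absNorm p.asIdeal : ℝ) ^ (1 - 2 * s.re) := by
    have := summable_norm (K := K) (t := 2 * s.re - 1) (by linarith)
    simpa using this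
  exact Summable.of_nonneg_of_le (fun p => norm_nonneg _) (fun p => norm_dev_le (W p) p hs)
    (h1.add h2)

theorem conv : Conv_S := by
  intro K _ _ W s hs
  have hsum := summable_dev W hs
  have hm : Multipliable fun p : HeightOneSpectrum (𝓞 K) => 1 + dev (W p) p s :=
    multipliable_one_add_of_summable hsum
  have hne : ∏' p : HeightOneSpectrum (𝓞 K), (1 + dev (W p) p s) ≠ 0 :=
    tprod_one_add_ne_zero_of_summable (fun p => one_add_dev_ne (W p) p hs) hsum
  have hf : (fun p : HeightOneSpectrum (𝓞 K) => factor (W p) p s)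
      = fun p => (1 + dev (W p) p s)⁻¹ := by
    funext p
    exact factor_eq (W p) p s
  refine ⟨?_, ?_, ?_⟩
  · rw [hf]
    exact hm.inv₀ hne
  · intro p
    rw [factor_eq]
    exact inv_ne_zero (one_add_dev_ne (W p) p hs)
  · rw [hf, hm.tprod_inv₀ hne]
    exact inv_ne_zero hne

end Pool.Agent.MP_0d9be2.H15
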