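import Pool.Agent.Lib.MP_0d9be2_nt.H15.CountInf
import Pool.Agent.Lib.MP_0d9be2_nt.H39.PrimesNF

/-!
# MP_0d9be2_nt, Theorem S, part C: the count at the finite places
-/

set_option autoImplicit false

open scoped NumberField Pointwise
open IsDedekindDomain NumberField

namespace Pool.Agent.MP_0d9be2.H15

section stab

variable {k M : Type} [Field k] [NumberField k] [Field M] [NumberField M] [Algebra k M]
  [IsGalois k M]

/-- The order of the decomposition group. -/
theorem card_stab (Q : HeightOneSpectrum (𝓞 M)) :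
    Nat.card (MulAction.stabilizer Gal(M/k) Q.asIdeal)
      = Q.asIdeal.ramificationIdx (𝓞 k) * Q.asIdeal.inertiaDeg (𝓞 k) := by
  haveI : FiniteDimensional k M := Module.Finite.of_restrictScalars_finite ℚ k M
  set P := Q.asIdeal.under (𝓞 k) with hP
  have h1 := Ideal.ncard_primesOver_mul_ramificationIdxIn_mul_inertiaDegIn P (𝓞 M) Gal(M/k)
  rw [Ideal.ramificationIdxIn_eq_ramificationIdx P Q.asIdeal Gal(M/k),
    Ideal.inertiaDegIn_eq_inertiaDeg P Q.asIdeal Gal(M/k)] at h1
  have h2 := MulAction.index_stabilizer Gal(M/k) Q.asIdeal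
  rw [Algebra.IsInvariant.orbit_eq_primesOver (𝓞 k) (𝓞 M) Gal(M/k) P Q.asIdeal] at h2
  have h3 := (MulAction.stabilizer Gal(M/k) Q.asIdeal).index_mul_card
  rw [h2, ← h1] at h3
  have h4 : (P.primesOver (𝓞 M)).ncard ≠ 0 := by
    intro h0
    rw [h0, zero_mul] at h1
    exact Nat.card_pos.ne h1
  exact Nat.eq_of_mul_eq_mul_left (Nat.pos_of_ne_zero h4) h3

/-- If every element of the decomposition group is trivial on `L`, the prime below in `L` has
`e = f = 1`. -/
theorem ef_one {F L : Type} [Field F] [NumberField F] [Field L] [NumberField L] [Algebra F L]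
    [Algebra L M] [Algebra F M] [IsScalarTower F L M] [IsGalois F M] (Q : HeightOneSpectrum (𝓞 M))
    (WL : HeightOneSpectrum (𝓞 L)) (hQ : Q.asIdeal.LiesOver WL.asIdeal)
    (h : ∀ σ : Gal(M/F), σ • Q.asIdeal = Q.asIdeal → ∀ y : L, σ (algebraMap L M y)
      = algebraMap L M y) :
    WL.asIdeal.ramificationIdx (𝓞 F) = 1 ∧ WL.asIdeal.inertiaDeg (𝓞 F) = 1 := by
  haveI : FiniteDimensional F L := Module.Finite.of_restrictScalars_finite ℚ F L
  haveI : FiniteDimensional L M := Module.Finite.of_restrictScalars_finite ℚ L M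
  haveI : FiniteDimensional F M := Module.Finite.of_restrictScalars_finite ℚ F M
  haveI : IsGalois L M := IsGalois.tower_top_of_isGalois F L M
  have h1 := card_stab (k := F) Q
  have h2 := card_stab (k := L) Q
  have hle : Nat.card (MulAction.stabilizer Gal(M/F) Q.asIdeal)
      ≤ Nat.card (MulAction.stabilizer Gal(M/L) Q.asIdeal) := by
    refine Nat.card_le_card_of_injective (fun σ => ⟨{ σ.1 with commutes' := h σ.1 σ.2 }, ?_⟩) ?_
    · exact σ.2
    · intro σ τ hστ
      apply Subtype.ext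
      ext x
      have := congrArg Subtype.val hστ
      exact DFunLike.congr_fun this x
  have he : Q.asIdeal.ramificationIdx (𝓞 F)
      = WL.asIdeal.ramificationIdx (𝓞 F) * Q.asIdeal.ramificationIdx (𝓞 L) :=
    Ideal.ramificationIdx_tower WL.asIdeal Q.asIdeal
  have hf : Q.asIdeal.inertiaDeg (𝓞 F)
      = WL.asIdeal.inertiaDeg (𝓞 F) * Q.asIdeal.inertiaDeg (𝓞 L) :=
    Ideal.inertiaDeg_tower WL.asIdeal Q.asIdeal
  have p1 : 0 < WL.asIdeal.ramificationIdx (𝓞 F) := Ideal.ramificationIdx_pos _ _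
  have p2 : 0 < WL.asIdeal.inertiaDeg (𝓞 F) := Ideal.inertiaDeg_pos _ _
  have p3 : 0 < Q.asIdeal.ramificationIdx (𝓞 L) := Ideal.ramificationIdx_pos _ _
  have p4 : 0 < Q.asIdeal.inertiaDeg (𝓞 L) := Ideal.inertiaDeg_pos _ _
  rw [h1, h2, he, hf] at hle
  set a := WL.asIdeal.ramificationIdx (𝓞 F)
  set b := WL.asIdeal.inertiaDeg (𝓞 F)
  set c := Q.asIdeal.ramificationIdx (𝓞 L)
  set d := Q.asIdeal.inertiaDeg (𝓞 L)
  have h5 : (a * b) * (c * d) ≤ 1 * (c * d) := by
    calc (a * b) * (c * d) = a * c * (b * d) := by ring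
      _ ≤ c * d := hle
      _ = 1 * (c * d) := by ring
  have h6 := Nat.le_of_mul_le_mul_right h5 (Nat.mul_pos p3 p4)
  have h7 : a * b = 1 := le_antisymm h6 (Nat.mul_pos p1 p2)
  exact ⟨Nat.eq_one_of_mul_eq_one_right h7, Nat.eq_one_of_mul_eq_one_left h7⟩

end stab

section place

variable {K M : Type} [Field K] [NumberField K] [Field M] [NumberField M] [Algebra K M]
  [IsGalois K M]

/-- The prime `a⁻¹ W`. -/
noncomputable def cj (W : HeightOneSpectrum (𝓞 M)) (a : Gal(M/K)) : HeightOneSpectrum (𝓞 M) :=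
  ⟨a⁻¹ • W.asIdeal, inferInstance, by
    intro h
    apply W.ne_bot
    rw [← smul_inv_smul a W.asIdeal, h, Ideal.pointwise_smul_def, Ideal.map_bot]⟩

theorem cj_asIdeal (W : HeightOneSpectrum (𝓞 M)) (a : Gal(M/K)) :
    (cj W a).asIdeal = a⁻¹ • W.asIdeal := rfl

theorem under_cj (H : Subgroup Gal(M/K)) (W : HeightOneSpectrum (𝓞 M)) (a b : Gal(M/K))
    (hab : (QuotientGroup.mk a : Gal(M/K) ⧸ H) = QuotientGroup.mk b) :
    HeightOneSpectrum.under (𝓞 (IntermediateField.fixedField H)) (cj W a)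
      = HeightOneSpectrum.under (𝓞 (IntermediateField.fixedField H)) (cj W b) := by
  apply HeightOneSpectrum.ext
  ext x
  change algebraMap _ (𝓞 M) x ∈ a⁻¹ • W.asIdeal ↔ algebraMap _ (𝓞 M) x ∈ b⁻¹ • W.asIdeal
  rw [Ideal.mem_inv_pointwise_smul_iff, Ideal.mem_inv_pointwise_smul_iff]
  rw [QuotientGroup.eq] at hab
  have h1 : (a⁻¹ * b) • (algebraMap (𝓞 (IntermediateField.fixedField H)) (𝓞 M) x)
      = algebraMap (𝓞 (IntermediateField.fixedField H)) (𝓞 M) x := by
    apply NumberField.RingOfIntegers.ext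
    exact (x : IntermediateField.fixedField H).2 ⟨_, hab⟩
  have h2 : b • (algebraMap (𝓞 (IntermediateField.fixedField H)) (𝓞 M) x)
      = a • (algebraMap (𝓞 (IntermediateField.fixedField H)) (𝓞 M) x) := by
    have h3 := congrArg (fun z => a • z) h1
    beta_reduce at h3
    rw [← mul_smul, mul_inv_cancel_left] at h3
    exact h3
  rw [h2]

/-- The place of the fixed field given by a coset. -/
noncomputable def pl (H : Subgroup Gal(M/K)) (W : HeightOneSpectrum (𝓞 M))
    (y : Gal(M/K) ⧸ H) : HeightOneSpectrum (𝓞 (IntermediateField.fixedField H)) :=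
  HeightOneSpectrum.under (𝓞 (IntermediateField.fixedField H)) (cj W y.out)

theorem pl_mk (H : Subgroup Gal(M/K)) (W : HeightOneSpectrum (𝓞 M)) (a : Gal(M/K)) :
    pl H W (QuotientGroup.mk a)
      = HeightOneSpectrum.under (𝓞 (IntermediateField.fixedField H)) (cj W a) :=
  under_cj H W _ _ (QuotientGroup.out_eq' _)

/-- The number of cosets giving the place `w` of the fixed field is the local degree. -/
theorem card_fibre (H : Subgroup Gal(M/K)) (v : HeightOneSpectrum (𝓞 K))
    (W : HeightOneSpectrum (𝓞 M)) (hW : W.asIdeal.LiesOver v.asIdeal)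
    (w : HeightOneSpectrum (𝓞 (IntermediateField.fixedField H)))
    (hw : w.asIdeal.LiesOver v.asIdeal) :
    Nat.card {y : Gal(M/K) ⧸ H // pl H W y = w}
      = w.asIdeal.ramificationIdx (𝓞 K) * w.asIdeal.inertiaDeg (𝓞 K) := by
  classical
  haveI : FiniteDimensional K M := Module.Finite.of_restrictScalars_finite ℚ K M
  haveI : IsGaloisGroup H (𝓞 (IntermediateField.fixedField H)) (𝓞 M) :=
    H39.isGaloisGroup_fixedField K M H
  -- a prime over `w`
  obtain ⟨⟨Q, hQp, hQw⟩⟩ := (inferInstance : Nonempty (w.asIdeal.primesOver (𝓞 M)))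
  have hQv : Q.LiesOver v.asIdeal := Ideal.LiesOver.trans Q w.asIdeal v.asIdeal
  -- the two group identities
  have h1 := Ideal.ncard_primesOver_mul_ramificationIdxIn_mul_inertiaDegIn w.asIdeal (𝓞 M) H
  rw [Ideal.ramificationIdxIn_eq_ramificationIdx w.asIdeal Q H,
    Ideal.inertiaDegIn_eq_inertiaDeg w.asIdeal Q H] at h1
  have h2 : Nat.card (MulAction.stabilizer Gal(M/K) W.asIdeal)
      = Q.ramificationIdx (𝓞 K) * Q.inertiaDeg (𝓞 K) := by
    rw [card_stab, ← Ideal.ramificationIdx_eq_of_isGaloisGroup v.asIdeal W.asIdeal Q Gal(M/K),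
      ← Ideal.inertiaDeg_eq_of_isGaloisGroup v.asIdeal W.asIdeal Q Gal(M/K)]
  have he : Q.ramificationIdx (𝓞 K)
      = w.asIdeal.ramificationIdx (𝓞 K) *
        Q.ramificationIdx (𝓞 (IntermediateField.fixedField H)) :=
    Ideal.ramificationIdx_tower w.asIdeal Q
  have hf : Q.inertiaDeg (𝓞 K)
      = w.asIdeal.inertiaDeg (𝓞 K) * Q.inertiaDeg (𝓞 (IntermediateField.fixedField H)) :=
    Ideal.inertiaDeg_tower w.asIdeal Q
  -- counting the elements of the group in two ways
  have h3 : Nat.card {a : Gal(M/K) // pl H W (QuotientGroup.mk a) = w}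
      = Nat.card {y : Gal(M/K) ⧸ H // pl H W y = w} * Nat.card H := by
    rw [mul_comm, ← Nat.card_prod]
    exact Nat.card_congr (QuotientGroup.preimageMkEquivSubgroupProdSet H
      {y : Gal(M/K) ⧸ H | pl H W y = w})
  have h4 : Nat.card {a : Gal(M/K) // pl H W (QuotientGroup.mk a) = w}
      = (w.asIdeal.primesOver (𝓞 M)).ncard *
        Nat.card (MulAction.stabilizer Gal(M/K) W.asIdeal) := by
    have hmem : ∀ a : Gal(M/K), pl H W (QuotientGroup.mk a) = w →
        a⁻¹ • W.asIdeal ∈ w.asIdeal.primesOver (𝓞 M) := by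
      intro a ha
      refine ⟨inferInstance, ?_⟩
      rw [pl_mk] at ha
      exact ⟨congrArg HeightOneSpectrum.asIdeal ha.symm⟩
    have hmem' : ∀ a : Gal(M/K), a⁻¹ • W.asIdeal ∈ w.asIdeal.primesOver (𝓞 M) →
        pl H W (QuotientGroup.mk a) = w := by
      intro a ha
      rw [pl_mk]
      exact HeightOneSpectrum.ext ha.2.over.symm
    have hex : ∀ q : w.asIdeal.primesOver (𝓞 M), ∃ a : Gal(M/K), a⁻¹ • W.asIdeal = q.1 := by
      rintro ⟨q, hq, hqw⟩
      have hqv : q.LiesOver v.asIdeal := Ideal.LiesOver.trans q w.asIdeal v.asIdeal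
      obtain ⟨σ, hσ⟩ := Ideal.exists_smul_eq_of_isGaloisGroup v.asIdeal W.asIdeal q Gal(M/K)
      exact ⟨σ⁻¹, by rw [inv_inv]; exact hσ⟩
    choose c hc using hex
    let e : {a : Gal(M/K) // pl H W (QuotientGroup.mk a) = w} ≃
        (w.asIdeal.primesOver (𝓞 M)) × MulAction.stabilizer Gal(M/K) W.asIdeal :=
      { toFun := fun a => (⟨a.1⁻¹ • W.asIdeal, hmem a.1 a.2⟩,
          ⟨a.1 * (c ⟨a.1⁻¹ • W.asIdeal, hmem a.1 a.2⟩)⁻¹, by
            rw [MulAction.mem_stabilizer_iff, mul_smul, hc, smul_inv_smul]⟩)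
        invFun := fun z => ⟨z.2.1 * c z.1, by
          apply hmem'
          have h5 : z.2.1⁻¹ • W.asIdeal = W.asIdeal := by
            rw [inv_smul_eq_iff]
            exact z.2.2.symm
          rw [mul_inv_rev, mul_smul, h5, hc]
          exact z.1.2⟩
        left_inv := fun a => by
          apply Subtype.ext
          simp
        right_inv := fun z => by
          have h5 : z.2.1⁻¹ • W.asIdeal = W.asIdeal := by
            rw [inv_smul_eq_iff]
            exact z.2.2.symm
          have h6 : (z.2.1 * c z.1)⁻¹ • W.asIdeal = z.1.1 := by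
            rw [mul_inv_rev, mul_smul, h5, hc]
          have h7 : (⟨(z.2.1 * c z.1)⁻¹ • W.asIdeal, by rw [h6]; exact z.1.2⟩ :
              w.asIdeal.primesOver (𝓞 M)) = z.1 := Subtype.ext h6
          refine Prod.ext h7 ?_
          apply Subtype.ext
          change z.2.1 * c z.1 * (c ⟨(z.2.1 * c z.1)⁻¹ • W.asIdeal, _⟩)⁻¹ = z.2.1
          rw [h7, mul_inv_cancel_right] }
    rw [Nat.card_congr e, Nat.card_prod, Nat.card_coe_set_eq]
  -- conclusion
  have hHpos : 0 < Nat.card H := Nat.card_pos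
  refine Nat.eq_of_mul_eq_mul_right hHpos ?_
  rw [← h3, h4, h2, he, hf, ← h1]
  ring

end place

/-- The count at the finite places. -/
theorem count : Count_S := by
  classical
  intro K K₁ M _ _ _ _ _ _ _ _ _ _ _ _ H v W hW S hS
  haveI : FiniteDimensional K M := Module.Finite.of_restrictScalars_finite ℚ K M
  haveI : FiniteDimensional K K₁ := Module.Finite.of_restrictScalars_finite ℚ K K₁
  set F := IntermediateField.fixedField H with hF
  -- a coset over a bad place is fixed by an element of `S`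
  have key : ∀ y : Gal(M/K) ⧸ H, ¬ SplitsAt K K₁ F (pl H W y) → ∃ g ∈ S, g • y = y := by
    intro y hbad
    obtain ⟨b, rfl⟩ := QuotientGroup.mk_surjective y
    by_contra hcon
    push Not at hcon
    apply hbad
    intro L _ _ _ _ _ hc WL hWL
    haveI := hc.1
    haveI := hc.2.1
    obtain ⟨φ⟩ := exists_embed (M := M) hc
    letI : Algebra L M := φ.toRingHom.toAlgebra
    haveI : IsScalarTower F L M := IsScalarTower.of_algebraMap_eq fun x => (φ.commutes x).symm
    haveI : FiniteDimensional L M := Module.Finite.of_restrictScalars_finite ℚ L M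
    haveI : FiniteDimensional F M := Module.Finite.of_restrictScalars_finite ℚ F M
    haveI : IsGalois F M := IsGalois.tower_top_of_isGalois K F M
    obtain ⟨⟨Q, hQp, hQL⟩⟩ := (inferInstance : Nonempty (WL.asIdeal.primesOver (𝓞 M)))
    have hQ0 : Q ≠ ⊥ := Ideal.ne_bot_of_liesOver_of_ne_bot WL.ne_bot Q
    have hQF : Q.LiesOver (pl H W (QuotientGroup.mk b)).asIdeal :=
      Ideal.LiesOver.trans Q WL.asIdeal _
    have hbF : (b⁻¹ • W.asIdeal).LiesOver (pl H W (QuotientGroup.mk b)).asIdeal := by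
      rw [pl_mk]
      exact ⟨rfl⟩
    obtain ⟨τ, hτ⟩ := Ideal.exists_smul_eq_of_isGaloisGroup
      (pl H W (QuotientGroup.mk b)).asIdeal (b⁻¹ • W.asIdeal) Q Gal(M/F)
    refine ef_one (F := F) ⟨Q, hQp, hQ0⟩ WL hQL ?_
    intro σ hσ y
    refine fix_embed (K := K) (K₁ := K₁) hc φ σ ?_ y
    by_contra hx
    push Not at hx
    obtain ⟨x, hx⟩ := hx
    -- the element of `S`
    set s : Gal(M/K) := σ.restrictScalars K with hs
    set t : Gal(M/K) := τ.restrictScalars K with ht
    have hsH : s ∈ H := mem_of_fixed H σ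
    have htH : t ∈ H := mem_of_fixed H τ
    have htQ : t • (b⁻¹ • W.asIdeal) = Q := hτ
    have hsQ : s • Q = Q := hσ
    have hfix : (b * (t⁻¹ * s * t) * b⁻¹) • W.asIdeal = W.asIdeal := by
      have h1 : (b * (t⁻¹ * s * t) * b⁻¹) • W.asIdeal = b • t⁻¹ • s • t • b⁻¹ • W.asIdeal := by
        simp only [mul_smul]
      rw [h1, htQ, hsQ, ← htQ, inv_smul_smul, smul_inv_smul]
    refine hcon _ (hS (b * (t⁻¹ * s * t) * b⁻¹) hfix ?_)
      (smul_mk_of_mem H b _ (H.mul_mem (H.mul_mem (H.inv_mem htH) hsH) htH))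
    by_contra hall
    push Not at hall
    apply hx
    have h6 := conj_trivial (b * t⁻¹) _ hall x
    have h7 : (b * t⁻¹)⁻¹ * (b * (t⁻¹ * s * t) * b⁻¹) * (b * t⁻¹) = s := by group
    rw [h7] at h6
    exact h6
  haveI : Finite (Gal(M/K) ⧸ H) := inferInstance
  letI : Fintype (Gal(M/K) ⧸ H) := Fintype.ofFinite _
  set B := (fib F v).filter (fun w => ¬ SplitsAt K K₁ F w) with hB
  have hcard : ∀ (p : Gal(M/K) ⧸ H → Prop) [DecidablePred p],
      Nat.card {y : Gal(M/K) ⧸ H // p y} = (Finset.univ.filter p).card := by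
    intro p _
    rw [Nat.card_eq_fintype_card, Fintype.card_subtype]
  calc badDeg K K₁ F v
      = ∑ w ∈ B, Nat.card {y : Gal(M/K) ⧸ H // pl H W y = w} := by
        unfold badDeg
        refine Finset.sum_congr rfl fun w hw => ?_
        rw [Finset.mem_filter, mem_fib] at hw
        exact (card_fibre H v W hW w hw.1).symm
    _ = ∑ w ∈ B, (Finset.univ.filter fun y : Gal(M/K) ⧸ H => pl H W y = w).card :=
        Finset.sum_congr rfl fun w _ => hcard _
    _ = (Finset.univ.filter fun y : Gal(M/K) ⧸ H => pl H W y ∈ B).card := by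
        rw [Finset.card_eq_sum_card_fiberwise (f := pl H W) (t := B)]
        · refine Finset.sum_congr rfl fun w hw => ?_
          congr 1
          ext y
          simp only [Finset.mem_filter, Finset.mem_univ, true_and]
          constructor
          · intro h
            exact ⟨h ▸ hw, h⟩
          · exact fun h => h.2
        · intro y hy
          exact (Finset.mem_filter.mp (Finset.mem_coe.mp hy)).2
    _ ≤ (S.biUnion fun g => Finset.univ.filter fun y : Gal(M/K) ⧸ H => g • y = y).card := by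
        refine Finset.card_le_card ?_
        intro y hy
        have h1 := (Finset.mem_filter.mp hy).2
        have h2 := (Finset.mem_filter.mp h1).2
        obtain ⟨g, hg, hgy⟩ := key y h2
        rw [Finset.mem_biUnion]
        exact ⟨g, hg, Finset.mem_filter.mpr ⟨Finset.mem_univ _, hgy⟩⟩
    _ ≤ ∑ g ∈ S, (Finset.univ.filter fun y : Gal(M/K) ⧸ H => g • y = y).card :=
        Finset.card_biUnion_le
    _ = ∑ g ∈ S, Nat.card {x : Gal(M/K) ⧸ H // g • x = x} :=
        Finset.sum_congr rfl fun g _ => (hcard _).symm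

end Pool.Agent.MP_0d9be2.H15
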