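import Pool.Agent.Lib.MP_0d9be2_nt.Defs3

/-!
# MP_0d9be2_nt, Theorem S, part C: the count at the infinite places
-/

set_option autoImplicit false

open scoped NumberField Pointwise
open IsDedekindDomain NumberField

namespace Pool.Agent.MP_0d9be2.H15

section embed

variable {K K₁ M F L : Type} [Field K] [Field K₁] [Field M] [Field F] [Field L]
  [Algebra K K₁] [Algebra K M] [Algebra K₁ M] [Algebra K F] [Algebra F M] [Algebra K L]
  [Algebra K₁ L] [Algebra F L]

/-- A compositum of `F` and `K₁` embeds into a normal extension containing both. -/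
theorem exists_embed [IsScalarTower K K₁ M] [IsScalarTower K F M] [FiniteDimensional K M]
    [Normal K M] [FiniteDimensional K K₁] (hc : IsCompositum K K₁ F L) :
    Nonempty (L →ₐ[F] M) := by
  obtain ⟨h1, h2, h3⟩ := hc
  refine IntermediateField.nonempty_algHom_of_adjoin_splits (S := Set.range (algebraMap K₁ L)) ?_
    (IntermediateField.adjoin_eq_top_of_algebra _ _ h3)
  rintro _ ⟨x, rfl⟩
  have hx : IsIntegral K x := Algebra.IsIntegral.isIntegral x
  have hxL : IsIntegral K (algebraMap K₁ L x) := hx.algebraMap
  refine ⟨hxL.tower_top, ?_⟩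
  refine hxL.minpoly_splits_tower_top ?_
  rw [minpoly.algebraMap_eq (algebraMap K₁ L).injective,
    ← minpoly.algebraMap_eq (algebraMap K₁ M).injective]
  exact Normal.splits inferInstance _

/-- An automorphism over `F` which is trivial on `K₁` is trivial on the compositum. -/
theorem fix_embed [IsScalarTower K K₁ M] [IsScalarTower K F M] [Normal K K₁]
    (hc : IsCompositum K K₁ F L) (φ : L →ₐ[F] M) (σ : Gal(M/F))
    (hσ : ∀ x : K₁, σ (algebraMap K₁ M x) = algebraMap K₁ M x) (y : L) : σ (φ y) = φ y := by
  obtain ⟨h1, h2, h3⟩ := hc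
  have hy : y ∈ Algebra.adjoin F (Set.range (algebraMap K₁ L)) := by
    rw [h3]
    exact Algebra.mem_top
  induction hy using Algebra.adjoin_induction with
  | mem x hx =>
    obtain ⟨x, rfl⟩ := hx
    have h4 := (φ.restrictScalars K).restrictNormal_commutes K₁ x
    change _ = φ (algebraMap K₁ L x) at h4
    rw [← h4]
    exact hσ _
  | algebraMap r =>
    rw [AlgHom.commutes, AlgEquiv.commutes]
  | add x y _ _ hx hy => rw [map_add, map_add, hx, hy]
  | mul x y _ _ hx hy => rw [map_mul, map_mul, hx, hy]

/-- The elements that are trivial on a normal subextension form a normal subgroup. -/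
theorem conj_trivial [IsScalarTower K K₁ M] [Normal K K₁] (a g : Gal(M/K))
    (hg : ∀ x : K₁, g (algebraMap K₁ M x) = algebraMap K₁ M x) (x : K₁) :
    (a⁻¹ * g * a) (algebraMap K₁ M x) = algebraMap K₁ M x := by
  have h1 := a.restrictNormal_commutes K₁ x
  rw [AlgEquiv.mul_apply, AlgEquiv.mul_apply, ← h1, hg, h1]
  exact a.symm_apply_apply _

end embed

section inf

variable {K M : Type} [Field K] [NumberField K] [Field M] [NumberField M] [Algebra K M]
  [IsGalois K M]

/-- The element of `H` given by an automorphism over the fixed field. -/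
theorem mem_of_fixed (H : Subgroup Gal(M/K)) (σ : Gal(M/IntermediateField.fixedField H)) :
    (σ.restrictScalars K : Gal(M/K)) ∈ H := by
  haveI : FiniteDimensional K M := Module.Finite.of_restrictScalars_finite ℚ K M
  refine (IntermediateField.fixingSubgroup_fixedField H).le ?_
  rw [IntermediateField.mem_fixingSubgroup_iff]
  intro x hx
  exact σ.commutes ⟨x, hx⟩

theorem smul_mk_of_mem (H : Subgroup Gal(M/K)) (a h : Gal(M/K)) (hh : h ∈ H) :
    (a * h * a⁻¹) • (QuotientGroup.mk a : Gal(M/K) ⧸ H) = QuotientGroup.mk a := by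
  rw [MulAction.Quotient.smul_mk, smul_eq_mul, QuotientGroup.eq]
  have : (a * h * a⁻¹ * a)⁻¹ * a = h⁻¹ := by group
  rw [this]
  exact H.inv_mem hh

theorem comap_eq_of_mk_eq (H : Subgroup Gal(M/K)) (W : InfinitePlace M) (a b : Gal(M/K))
    (hab : (QuotientGroup.mk a : Gal(M/K) ⧸ H) = QuotientGroup.mk b) :
    (a⁻¹ • W).comap (algebraMap (IntermediateField.fixedField H) M)
      = (b⁻¹ • W).comap (algebraMap (IntermediateField.fixedField H) M) := by
  rw [QuotientGroup.eq] at hab
  ext x
  rw [InfinitePlace.comap_apply, InfinitePlace.comap_apply, InfinitePlace.smul_apply,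
    InfinitePlace.smul_apply]
  have h1 : (a⁻¹ * b) (algebraMap (IntermediateField.fixedField H) M x)
      = algebraMap (IntermediateField.fixedField H) M x := x.2 ⟨_, hab⟩
  rw [AlgEquiv.mul_apply] at h1
  have h2 : b (algebraMap (IntermediateField.fixedField H) M x)
      = a (algebraMap (IntermediateField.fixedField H) M x) := by
    have h3 := congrArg a h1
    rw [← AlgEquiv.mul_apply, mul_inv_cancel, AlgEquiv.one_apply] at h3
    exact h3
  exact congrArg W h2.symm

end inf

/-- The count at the infinite places. -/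
theorem countInf : CountInf_S := by
  classical
  intro K K₁ M _ _ _ _ _ _ _ _ _ _ _ _ H v W hW S hS
  haveI : FiniteDimensional K M := Module.Finite.of_restrictScalars_finite ℚ K M
  haveI : FiniteDimensional K K₁ := Module.Finite.of_restrictScalars_finite ℚ K K₁
  set F := IntermediateField.fixedField H with hF
  have key : ∀ w : {w : InfinitePlace F // w.comap (algebraMap K F) = v ∧
      ¬ SplitsAtInf K K₁ F w}, ∃ (a g : Gal(M/K)), g ∈ S ∧
      g • (QuotientGroup.mk a : Gal(M/K) ⧸ H) = QuotientGroup.mk a ∧
      (a⁻¹ • W).comap (algebraMap F M) = w.1 := by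
    rintro ⟨w, hwv, hbad⟩
    unfold SplitsAtInf at hbad
    push Not at hbad
    obtain ⟨L, _, _, _, _, _, hc, WL, hWL, hram⟩ := hbad
    haveI := hc.1
    haveI := hc.2.1
    obtain ⟨φ⟩ := exists_embed (M := M) hc
    letI : Algebra L M := φ.toRingHom.toAlgebra
    haveI : IsScalarTower F L M := IsScalarTower.of_algebraMap_eq fun x => (φ.commutes x).symm
    haveI : FiniteDimensional F L := by
      haveI : FiniteDimensional ℚ L := inferInstance
      exact Module.Finite.of_restrictScalars_finite ℚ F L
    haveI : FiniteDimensional L M := Module.Finite.of_restrictScalars_finite ℚ L M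
    haveI : IsGalois F M := IsGalois.tower_top_of_isGalois K F M
    haveI : IsGalois L M := IsGalois.tower_top_of_isGalois F L M
    obtain ⟨Q, hQ⟩ := InfinitePlace.comap_surjective (k := L) (K := M) WL
    change Q.comap (algebraMap L M) = WL at hQ
    have hQF : Q.comap (algebraMap F M) = w := by
      rw [IsScalarTower.algebraMap_eq F L M, InfinitePlace.comap_comp, hQ, hWL]
    have hQK : Q.comap (algebraMap K M) = v := by
      rw [IsScalarTower.algebraMap_eq K F M, InfinitePlace.comap_comp, hQF, hwv]
    obtain ⟨a, ha⟩ := InfinitePlace.exists_smul_eq_of_comap_eq (k := K) (w := Q) (w' := W)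
      (by rw [hQK, hW])
    -- a nontrivial element
    have hσ : ∃ σ : Gal(M/F), σ • Q = Q ∧ ∃ x : K₁, σ (algebraMap K₁ M x) ≠ algebraMap K₁ M x := by
      by_contra hcon
      push Not at hcon
      have h1 : ¬ InfinitePlace.IsUnramified F Q := by
        intro h
        have h2 := InfinitePlace.IsUnramified.comap (F := M) (K := L) (k := F) h
        rw [hQ] at h2
        exact hram h2
      have h2 : ¬ InfinitePlace.IsUnramified L Q := by
        rw [InfinitePlace.isUnramified_iff_stabilizer_eq_bot] at h1 ⊢
        intro h3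
        apply h1
        rw [eq_bot_iff]
        intro σ hσ
        rw [MulAction.mem_stabilizer_iff] at hσ
        have h4 : ∀ y : L, σ (φ y) = φ y := fix_embed (K := K) (K₁ := K₁) hc φ σ (hcon σ hσ)
        let τ : Gal(M/L) := { σ with commutes' := fun y => h4 y }
        have h5 : τ ∈ MulAction.stabilizer Gal(M/L) Q := by
          rw [MulAction.mem_stabilizer_iff]
          exact hσ
        rw [h3, Subgroup.mem_bot] at h5
        rw [Subgroup.mem_bot]
        ext x
        exact DFunLike.congr_fun h5 x
      rw [InfinitePlace.not_isUnramified_iff, hQ] at h2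
      exact hram (InfinitePlace.IsReal.isUnramified (k := F) h2.2)
    obtain ⟨σ, hσQ, hσx⟩ := hσ
    set s : Gal(M/K) := σ.restrictScalars K with hs
    have hsH : s ∈ H := mem_of_fixed H σ
    refine ⟨a, a * s * a⁻¹, hS _ ?_ ?_, smul_mk_of_mem H a s hsH, ?_⟩
    · rw [mul_smul, mul_smul, ← ha, inv_smul_smul]
      congr 1
    · by_contra hcon
      push Not at hcon
      obtain ⟨x, hx⟩ := hσx
      apply hx
      have h6 := conj_trivial a _ hcon x
      have h7 : a⁻¹ * (a * s * a⁻¹) * a = s := by group
      rw [h7] at h6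
      exact h6
    · rw [← ha, inv_smul_smul]
      exact hQF
  choose a g hg hga haw using key
  have hinj : Function.Injective (fun w : {w : InfinitePlace F // w.comap (algebraMap K F) = v ∧
      ¬ SplitsAtInf K K₁ F w} => (⟨⟨g w, hg w⟩, ⟨QuotientGroup.mk (a w), hga w⟩⟩ :
        Σ g : S, {x : Gal(M/K) ⧸ H // g.1 • x = x})) := by
    intro w w' hww
    have h1 : (QuotientGroup.mk (a w) : Gal(M/K) ⧸ H) = QuotientGroup.mk (a w') := by
      have := congrArg (fun z : (Σ g : S, {x : Gal(M/K) ⧸ H // g.1 • x = x}) => z.2.1) hww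
      exact this
    apply Subtype.ext
    rw [← haw w, ← haw w']
    exact comap_eq_of_mk_eq H W (a w) (a w') h1
  have hfin : Finite (Gal(M/K) ⧸ H) := inferInstance
  unfold badInf
  calc Nat.card {w : InfinitePlace F // w.comap (algebraMap K F) = v ∧ ¬ SplitsAtInf K K₁ F w}
      ≤ Nat.card (Σ g : S, {x : Gal(M/K) ⧸ H // g.1 • x = x}) :=
        Nat.card_le_card_of_injective _ hinj
    _ = ∑ g : S, Nat.card {x : Gal(M/K) ⧸ H // g.1 • x = x} := Nat.card_sigma
    _ = ∑ g ∈ S, Nat.card {x : Gal(M/K) ⧸ H // g • x = x} :=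
        Finset.sum_coe_sort S (fun g => Nat.card {x : Gal(M/K) ⧸ H // g • x = x})

end Pool.Agent.MP_0d9be2.H15
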