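import Pool.Agent.Lib.MP_0d9be2_nt.H15.Main

/-!
# MP_0d9be2_nt: products of two `L`-functions over a relative extension (PART 5, analytic side)
-/

set_option autoImplicit false

open scoped NumberField
open IsDedekindDomain

namespace Pool.Agent.MP_0d9be2.H15

/-- If, outside a finite set of primes `v` of `K`, the Euler factors of `EL/L` over `v` multiply to
the product of the Euler factors of `E₁` and `E₂` at `v`, and `L(EL/L, s)` and `L(E₁/K, s)` have a
meromorphic continuation, then so has `L(E₂/K, s)`. -/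
theorem continues_of_mul {K L : Type} [Field K] [NumberField K] [Field L] [NumberField L]
    [Algebra K L] (EL : WeierstrassCurve L) (E₁ E₂ : WeierstrassCurve K)
    (minL : ∀ w, ∃ V, IsMinimalAt EL V w) (min₁ : ∀ v, ∃ V, IsMinimalAt E₁ V v)
    (hL : Continues EL) (h₁ : Continues E₁)
    (S : Set (HeightOneSpectrum (𝓞 K))) (hS : S.Finite)
    (hloc : ∀ v, v ∉ S → ∀ W₁ W₂ : WeierstrassCurve (𝓞 K), IsMinimalAt E₁ W₁ v →
      IsMinimalAt E₂ W₂ v → ∀ V : HeightOneSpectrum (𝓞 L) → WeierstrassCurve (𝓞 L),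
      (∀ w, IsMinimalAt EL (V w) w) → ∀ s : ℂ,
      ∏ w ∈ fib L v, factor (V w) w s = factor W₁ v s * factor W₂ v s) :
    Continues E₂ := by
  classical
  intro W₂ hW₂
  choose V hV using minL
  choose W₁ hW₁ using min₁
  obtain ⟨f, hfm, hfs⟩ := hL V hV
  obtain ⟨g, hgm, hgs⟩ := h₁ W₁ hW₁
  set T : Finset (HeightOneSpectrum (𝓞 K)) := hS.toFinset with hTdef
  set P : HeightOneSpectrum (𝓞 K) → ℂ → ℂ := fun v s =>
    (∏ w ∈ fib L v, factor (V w) w s) / factor (W₁ v) v s with hPdef
  refine ⟨fun s => (∏ v ∈ T, factor (W₂ v) v s / P v s) * (f s / g s), ?_, ?_⟩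
  · refine MeromorphicOn.fun_mul ?_ (MeromorphicOn.fun_div hfm hgm)
    refine MeromorphicOn.fun_prod fun v _ => ?_
    refine MeromorphicOn.fun_div (factor_mero (W₂ v) v) ?_
    refine MeromorphicOn.fun_div ?_ (factor_mero (W₁ v) v)
    exact MeromorphicOn.fun_prod fun w _ => factor_mero (V w) w
  · intro s hs
    obtain ⟨hm1, hne1, hp1⟩ := conv K W₁ s hs
    obtain ⟨hmL, hneL, -⟩ := conv L V s hs
    have h1 : HasProd (fun v => factor (W₁ v) v s) (g s) := by
      rw [hgs s hs]
      exact hm1.hasProd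
    have hg0 : g s ≠ 0 := by
      rw [hgs s hs]
      exact hp1
    have h2 : HasProd (fun v : HeightOneSpectrum (𝓞 K) => ∏ w ∈ fib L v, factor (V w) w s)
        (f s) := by
      rw [hfs s hs]
      exact hasProd_fib (K := K) hmL.hasProd
    have hPprod : HasProd (fun v : HeightOneSpectrum (𝓞 K) => P v s) (f s / g s) := by
      have h3 := h2.mul (h1.inv₀ hg0)
      simp only [hPdef, div_eq_mul_inv]
      exact h3
    have hPne : ∀ v, P v s ≠ 0 := by
      intro v
      refine div_ne_zero (Finset.prod_ne_zero_iff.mpr fun w _ => hneL w) (hne1 v)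
    have hR : HasProd (fun v => factor (W₂ v) v s / P v s) (∏ v ∈ T, factor (W₂ v) v s / P v s) := by
      refine hasProd_prod_of_ne_finset_one fun v hv => ?_
      rw [hTdef, Set.Finite.mem_toFinset] at hv
      have h4 := hloc v hv (W₁ v) (W₂ v) (hW₁ v) (hW₂ v) V hV s
      have h5 : factor (W₂ v) v s = P v s := by
        rw [hPdef]
        simp only
        rw [h4, mul_comm, mul_div_assoc, div_self (hne1 v), mul_one]
      rw [← h5, div_self]
      rw [h5]
      exact hPne v
    have hall := hR.mul hPprod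
    have heq : (fun v => factor (W₂ v) v s / P v s * P v s) = fun v => factor (W₂ v) v s := by
      funext v
      exact div_mul_cancel₀ _ (hPne v)
    rw [heq] at hall
    exact hall.tprod_eq.symm

/-! ### The local identities -/

theorem factor_congr {K L : Type} [Field K] [NumberField K] [Field L] [NumberField L]
    (W : WeierstrassCurve (𝓞 K)) (v : HeightOneSpectrum (𝓞 K))
    (V : WeierstrassCurve (𝓞 L)) (w : HeightOneSpectrum (𝓞 L))
    (hq : Ideal.absNorm w.asIdeal = Ideal.absNorm v.asIdeal) (hA : affPts V w = affPts W v)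
    (hW : W.Δ ∉ v.asIdeal) (hV : V.Δ ∉ w.asIdeal) (s : ℂ) : factor V w s = factor W v s := by
  unfold factor
  rw [if_neg hW, if_neg hV, hq, hA]

/-- The identity at an inert prime. -/
theorem factor_inert {K L : Type} [Field K] [NumberField K] [Field L] [NumberField L]
    (W₁ W₂ : WeierstrassCurve (𝓞 K)) (v : HeightOneSpectrum (𝓞 K))
    (V : WeierstrassCurve (𝓞 L)) (w : HeightOneSpectrum (𝓞 L))
    (hq : Ideal.absNorm w.asIdeal = Ideal.absNorm v.asIdeal ^ 2)
    (h12 : affPts W₁ v + affPts W₂ v = 2 * Ideal.absNorm v.asIdeal)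
    (hA : (affPts V w : ℤ) = (Ideal.absNorm v.asIdeal : ℤ) ^ 2 + 2 * Ideal.absNorm v.asIdeal
      - ((Ideal.absNorm v.asIdeal : ℤ) - affPts W₁ v) ^ 2)
    (hW₁ : W₁.Δ ∉ v.asIdeal) (hW₂ : W₂.Δ ∉ v.asIdeal) (hV : V.Δ ∉ w.asIdeal) (s : ℂ) :
    factor V w s = factor W₁ v s * factor W₂ v s := by
  have hN : (Ideal.absNorm v.asIdeal : ℂ) ≠ 0 := by exact_mod_cast (absNorm_pos v).ne'
  have hA' : (affPts V w : ℂ) = (Ideal.absNorm v.asIdeal : ℂ) ^ 2 + 2 * Ideal.absNorm v.asIdeal
      - ((Ideal.absNorm v.asIdeal : ℂ) - affPts W₁ v) ^ 2 := by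
    exact_mod_cast congrArg (Int.cast (R := ℂ)) hA
  have h12' : (affPts W₂ v : ℂ) = 2 * Ideal.absNorm v.asIdeal - affPts W₁ v := by
    have := congrArg (Nat.cast (R := ℂ)) h12
    push_cast at this
    linear_combination this
  unfold factor
  rw [if_neg hW₁, if_neg hW₂, if_neg hV, hq, hA', h12', ← mul_inv]
  congr 1
  have e0 : (((Ideal.absNorm v.asIdeal ^ 2 : ℕ) : ℂ)) ^ (-s)
      = ((Ideal.absNorm v.asIdeal : ℂ) ^ (-s)) ^ 2 := by
    rw [sq (Ideal.absNorm v.asIdeal), Nat.cast_mul, Complex.natCast_mul_natCast_cpow, sq]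
  have e1 : ∀ x : ℂ, x ^ (-2 * s) = (x ^ (-s)) ^ 2 := by
    intro x
    rw [← Complex.cpow_nat_mul]
    congr 1
    push_cast
    ring
  rw [e1, e1, e0]
  push_cast
  ring

end Pool.Agent.MP_0d9be2.H15
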