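import Pool.Agent.Lib.MP_0d9be2_nt.Defs2
import Pool.Agent.Lib.MP_0d9be2_nt.H15.Mul
import Pool.Agent.Lib.MP_0d9be2_nt.H7.Model

/-!
# MP_0d9be2_nt: the twist step (PART 5.3)
-/

set_option autoImplicit false

open scoped NumberField
open IsDedekindDomain

namespace Pool.Agent.MP_0d9be2.H15

section congr

variable {K : Type} [Field K] [NumberField K]

theorem isModel_congr {E E₁ : WeierstrassCurve K} (C : WeierstrassCurve.VariableChange K)
    (h : C • E = E₁) (W : WeierstrassCurve (𝓞 K)) : IsModel E W ↔ IsModel E₁ W := by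
  constructor
  · rintro ⟨C', hC'⟩
    refine ⟨C * C', ?_⟩
    rw [mul_smul, hC', h]
  · rintro ⟨C', hC'⟩
    refine ⟨C⁻¹ * C', ?_⟩
    rw [mul_smul, hC', ← h, inv_smul_smul]

theorem isMinimalAt_congr {E E₁ : WeierstrassCurve K} (C : WeierstrassCurve.VariableChange K)
    (h : C • E = E₁) (W : WeierstrassCurve (𝓞 K)) (p : HeightOneSpectrum (𝓞 K)) :
    IsMinimalAt E W p ↔ IsMinimalAt E₁ W p := by
  unfold IsMinimalAt
  simp only [isModel_congr C h]

theorem continues_congr {E E₁ : WeierstrassCurve K} (C : WeierstrassCurve.VariableChange K)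
    (h : C • E = E₁) : Continues E ↔ Continues E₁ := by
  unfold Continues
  simp only [isMinimalAt_congr C h]

/-- Scaling of short curves. -/
theorem short_scale (A B : K) (u : Kˣ) :
    (⟨u⁻¹, 0, 0, 0⟩ : WeierstrassCurve.VariableChange K) • short A B
      = short ((u : K) ^ 4 * A) ((u : K) ^ 6 * B) := by
  unfold short
  rw [WeierstrassCurve.variableChange_def]
  simp

end congr

/-- Clearing denominators: a nonzero integer `u` such that `u * x` is integral for all `x` in a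
finite set. -/
theorem exists_scale {K : Type} [Field K] [NumberField K] (s : Finset K) :
    ∃ u : 𝓞 K, u ≠ 0 ∧ ∀ x ∈ s, ∃ y : 𝓞 K, (y : K) = (u : K) * x := by
  classical
  obtain ⟨b, hb⟩ := IsLocalization.exist_integer_multiples_of_finset (nonZeroDivisors (𝓞 K)) s
  refine ⟨b, nonZeroDivisors.ne_zero b.2, fun x hx => ?_⟩
  obtain ⟨y, hy⟩ := hb x hx
  refine ⟨y, ?_⟩
  rw [Algebra.smul_def] at hy
  exact hy

/-- The twist step. -/
theorem half (hMin : Minimal_S) (hLT : LocalTwist_S) : Half_S := by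
  classical
  intro K F _ _ _ _ _ E E' _ _ d hd hT h2 hx hnx hE hEF
  obtain ⟨A, B, C, C', hC, hC'⟩ := hT
  obtain ⟨u, hu0, hu⟩ := exists_scale ({A, B, d} : Finset K)
  obtain ⟨A', hA'⟩ := hu A (by simp)
  obtain ⟨B', hB'⟩ := hu B (by simp)
  obtain ⟨d', hd'⟩ := hu d (by simp)
  have huK : (u : K) ≠ 0 := by
    intro h
    exact hu0 (NumberField.RingOfIntegers.coe_injective (by rw [map_zero]; exact h))
  set c : 𝓞 K →+* K := algebraMap (𝓞 K) K with hc
  change c A' = c u * A at hA'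
  change c B' = c u * B at hB'
  change c d' = c u * d at hd'
  change c u ≠ 0 at huK
  obtain ⟨A₀, eA⟩ : ∃ x : 𝓞 K, c x = c u ^ 4 * A := ⟨u ^ 3 * A', by
    rw [map_mul, map_pow, hA']
    ring⟩
  obtain ⟨B₀, eB⟩ : ∃ x : 𝓞 K, c x = c u ^ 6 * B := ⟨u ^ 5 * B', by
    rw [map_mul, map_pow, hB']
    ring⟩
  obtain ⟨d₀, ed⟩ : ∃ x : 𝓞 K, c x = c u ^ 2 * d := ⟨u * d', by
    rw [map_mul, hd']
    ring⟩
  have hsm : ∀ a b : 𝓞 K, (short a b).map c = short (c a) (c b) := by
    intro a b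
    unfold short WeierstrassCurve.map
    simp
  -- the two curves over `K`
  have h1 : ∃ D : WeierstrassCurve.VariableChange K, D • E = (short A₀ B₀).map c := by
    refine ⟨(⟨(Units.mk0 _ huK)⁻¹, 0, 0, 0⟩ : WeierstrassCurve.VariableChange K) * C, ?_⟩
    rw [mul_smul, hC, short_scale, hsm, eA, eB]
    rfl
  have h1' : ∃ D : WeierstrassCurve.VariableChange K,
      D • E' = (short (d₀ ^ 2 * A₀) (d₀ ^ 3 * B₀)).map c := by
    refine ⟨(⟨(Units.mk0 _ (pow_ne_zero 2 huK))⁻¹, 0, 0, 0⟩ :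
      WeierstrassCurve.VariableChange K) * C', ?_⟩
    rw [mul_smul, hC', short_scale, hsm, map_mul c (d₀ ^ 2), map_mul c (d₀ ^ 3), map_pow,
      map_pow, eA, eB, ed]
    simp only [Units.val_mk0]
    congr 1 <;> ring
  obtain ⟨D, hD⟩ := h1
  obtain ⟨D', hD'⟩ := h1'
  have hDF : (D.map (algebraMap K F)) • (E.map (algebraMap K F))
      = ((short A₀ B₀).map c).map (algebraMap K F) := by
    rw [WeierstrassCurve.map_variableChange, hD]
  haveI : ((short A₀ B₀).map c).IsElliptic := by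
    rw [← hD]
    infer_instance
  have hdisc : 4 * A₀ ^ 3 + 27 * B₀ ^ 2 ≠ 0 := by
    intro h0
    have h3 : ((short A₀ B₀).map c).Δ = 0 := by
      rw [WeierstrassCurve.map_Δ]
      have h4 : (short A₀ B₀).Δ = -16 * (4 * A₀ ^ 3 + 27 * B₀ ^ 2) := by
        unfold short WeierstrassCurve.Δ WeierstrassCurve.b₂ WeierstrassCurve.b₄
          WeierstrassCurve.b₆ WeierstrassCurve.b₈
        ring
      rw [h4, h0, mul_zero, map_zero]
    exact ((short A₀ B₀).map c).isUnit_Δ.ne_zero h3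
  have hx' : ∃ x : F, x ^ 2 = algebraMap K F (algebraMap (𝓞 K) K d₀) := by
    obtain ⟨x, hx⟩ := hx
    refine ⟨algebraMap K F (c u) * x, ?_⟩
    change _ = algebraMap K F (c d₀)
    rw [ed, map_mul, mul_pow, hx, map_pow]
  have hnx' : ¬ ∃ x : K, x ^ 2 = algebraMap (𝓞 K) K d₀ := by
    rintro ⟨y, hy⟩
    refine hnx ⟨y / c u, ?_⟩
    rw [div_pow, hy]
    change c d₀ / _ = _
    rw [ed]
    field_simp
  obtain ⟨S, hS, hloc⟩ := hLT K F A₀ B₀ d₀ hdisc h2 hx' hnx'
  rw [continues_congr D' hD']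
  refine continues_of_mul (((short A₀ B₀).map c).map (algebraMap K F)) ((short A₀ B₀).map c) _
    (fun w => hMin F _ w) (fun v => hMin K _ v) ((continues_congr _ hDF).mp hEF)
    ((continues_congr D hD).mp hE) S hS ?_
  intro v hv W₁ W₂ hW₁ hW₂ V hV s
  exact hloc v hv W₁ W₂ V hW₁ hW₂ hV s

end Pool.Agent.MP_0d9be2.H15
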