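import Pool.Agent.Lib.MP_0d9be2_nt.H15.Conv

/-!
# MP_0d9be2_nt: the main theorem from its pieces
-/

set_option autoImplicit false

open scoped NumberField
open IsDedekindDomain

namespace Pool.Agent.MP_0d9be2.H15

/-! ### Products -/

theorem hasProd_pow' {ι : Type*} {f : ι → ℂ} {a : ℂ} (h : HasProd f a) (n : ℕ) :
    HasProd (fun x => f x ^ n) (a ^ n) := by
  induction n with
  | zero => simpa using hasProd_one
  | succ k ih =>
    have := ih.mul h
    simpa only [pow_succ] using this

theorem hasProd_zpow' {ι : Type*} {f : ι → ℂ} {a : ℂ} (h : HasProd f a) (ha : a ≠ 0) (n : ℤ) :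
    HasProd (fun x => f x ^ n) (a ^ n) := by
  obtain ⟨k, rfl | rfl⟩ := n.eq_nat_or_neg
  · simpa using hasProd_pow' h k
  · have h1 := hasProd_pow' h k
    have h2 := h1.inv₀ (pow_ne_zero k ha)
    simpa [zpow_neg] using h2

/-! ### Groups -/

theorem isHyper_of_equiv {G G' : Type} [Group G] [Group G'] (e : G ≃* G')
    (h : IsHyperElementary G) : IsHyperElementary G' := by
  obtain ⟨p, C, hp, hC, hcyc, hcop, k, hk⟩ := h
  refine ⟨p, C.map e.toMonoidHom, hp, hC.map _ e.surjective, ?_, ?_, k, ?_⟩
  · haveI := hcyc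
    exact isCyclic_of_surjective (C.equivMapOfInjective e.toMonoidHom e.injective)
      (C.equivMapOfInjective e.toMonoidHom e.injective).surjective
  · rw [← Nat.card_congr (C.equivMapOfInjective e.toMonoidHom e.injective).toEquiv]
    exact hcop
  · rw [← hk]
    exact Subgroup.index_map_equiv C e

/-! ### Primes -/

variable {K : Type} [Field K] [NumberField K]

section fib

variable {F : Type} [Field F] [NumberField F] [Algebra K F]

theorem under_eq_iff (w : HeightOneSpectrum (𝓞 F)) (v : HeightOneSpectrum (𝓞 K)) :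
    HeightOneSpectrum.under (𝓞 K) w = v ↔ w.asIdeal.LiesOver v.asIdeal := by
  constructor
  · rintro rfl
    exact ⟨rfl⟩
  · intro h
    exact HeightOneSpectrum.ext h.over.symm

theorem fib_finite (v : HeightOneSpectrum (𝓞 K)) :
    {w : HeightOneSpectrum (𝓞 F) | w.asIdeal.LiesOver v.asIdeal}.Finite := by
  have h := IsDedekindDomain.primesOver_finite v.asIdeal (𝓞 F)
  refine Set.Finite.of_finite_image (f := fun w : HeightOneSpectrum (𝓞 F) => w.asIdeal)
    (h.subset ?_) ?_
  · rintro _ ⟨w, hw, rfl⟩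
    exact ⟨w.isPrime, hw⟩
  · intro w _ w' _ hww
    exact HeightOneSpectrum.ext hww

variable (F) in
/-- The primes over `v`. -/
noncomputable def fib (v : HeightOneSpectrum (𝓞 K)) : Finset (HeightOneSpectrum (𝓞 F)) :=
  (fib_finite (F := F) v).toFinset

theorem mem_fib (v : HeightOneSpectrum (𝓞 K)) (w : HeightOneSpectrum (𝓞 F)) :
    w ∈ fib F v ↔ w.asIdeal.LiesOver v.asIdeal := by
  simp [fib]

theorem hasProd_fib {g : HeightOneSpectrum (𝓞 F) → ℂ} {a : ℂ} (h : HasProd g a) :
    HasProd (fun v : HeightOneSpectrum (𝓞 K) => ∏ w ∈ fib F v, g w) a := by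
  classical
  have h1 : HasProd (fun x : Σ v : HeightOneSpectrum (𝓞 K),
      {w : HeightOneSpectrum (𝓞 F) // HeightOneSpectrum.under (𝓞 K) w = v} => g x.2.1) a :=
    (Equiv.hasProd_iff (Equiv.sigmaFiberEquiv
      (fun w : HeightOneSpectrum (𝓞 F) => HeightOneSpectrum.under (𝓞 K) w))).mpr h
  refine h1.sigma fun v => ?_
  have hset : {w : HeightOneSpectrum (𝓞 F) | HeightOneSpectrum.under (𝓞 K) w = v}
      = (fib F v : Set (HeightOneSpectrum (𝓞 F))) := by
    ext w
    rw [Finset.mem_coe, mem_fib, ← under_eq_iff]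
    rfl
  have h2 : HasProd (g ∘ (Subtype.val : {w // w ∈ (fib F v : Set (HeightOneSpectrum (𝓞 F)))} → _))
      (∏ w ∈ fib F v, g w) := Finset.hasProd (fib F v) g
  rw [← hset] at h2
  exact h2

end fib

/-! ### Meromorphy -/

theorem factor_mero (W : WeierstrassCurve (𝓞 K)) (p : HeightOneSpectrum (𝓞 K)) :
    MeromorphicOn (fun s => factor W p s) Set.univ := by
  classical
  have hN : (Ideal.absNorm p.asIdeal : ℂ) ≠ 0 := by exact_mod_cast (absNorm_pos p).ne'
  intro z _
  have h1 : Differentiable ℂ (fun s : ℂ => 1 - ((Ideal.absNorm p.asIdeal : ℂ) - (affPts W p : ℂ))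
      * (Ideal.absNorm p.asIdeal : ℂ) ^ (-s)
    + (if W.Δ ∈ p.asIdeal then 0 else (Ideal.absNorm p.asIdeal : ℂ))
      * (Ideal.absNorm p.asIdeal : ℂ) ^ (-2 * s)) := by
    refine Differentiable.add (Differentiable.sub (differentiable_const _) ?_) ?_
    · refine (differentiable_const _).mul ?_
      exact Differentiable.const_cpow differentiable_neg (Or.inl hN)
    · refine (differentiable_const _).mul ?_
      exact Differentiable.const_cpow (differentiable_id.const_mul _) (Or.inl hN)
  exact (h1.analyticAt z).meromorphicAt.inv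

/-! ### The algebra at a good prime -/

theorem prod_zpow_sum {ι : Type*} {T : Finset ι} {a : ℂ} (ha : a ≠ 0) (m : ι → ℤ) :
    ∏ i ∈ T, a ^ m i = a ^ ∑ i ∈ T, m i := by
  classical
  induction T using Finset.induction_on with
  | empty => simp
  | insert b s hb ih => rw [Finset.prod_insert hb, Finset.sum_insert hb, ih, zpow_add₀ ha]

/-- The local identity at a good prime. -/
theorem local_identity {ι : Type*} (T : Finset ι) (n : ι → ℤ) {X : ι → Type*}
    (fb : ∀ i, Finset (X i)) (φ : ∀ i, X i → ℂ) (deg : ∀ i, X i → ℕ) (Φ : ℕ → ℂ)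
    (h1 : ∀ i ∈ T, ∀ w ∈ fb i, φ i w = Φ (deg i w))
    (h0 : ∀ i ∈ T, ∀ w ∈ fb i, φ i w ≠ 0) (hΦ : Φ 1 ≠ 0)
    (hrel : ∀ f : ℕ, ∑ i ∈ T, n i * (((fb i).filter fun w => deg i w = f).card : ℤ)
      = if f = 1 then 1 else 0) :
    ∏ i ∈ T, (∏ w ∈ fb i, φ i w) ^ n i = Φ 1 := by
  classical
  set R : Finset ℕ := insert 1 (T.biUnion fun i => (fb i).image (deg i)) with hR
  have hmaps : ∀ i ∈ T, ∀ w ∈ fb i, deg i w ∈ R := by
    intro i hi w hw
    rw [hR, Finset.mem_insert]
    right
    rw [Finset.mem_biUnion]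
    exact ⟨i, hi, Finset.mem_image_of_mem _ hw⟩
  have hRne : ∀ f ∈ R, Φ f ≠ 0 := by
    intro f hf
    rw [hR, Finset.mem_insert] at hf
    rcases hf with rfl | hf
    · exact hΦ
    · rw [Finset.mem_biUnion] at hf
      obtain ⟨i, hi, hf⟩ := hf
      rw [Finset.mem_image] at hf
      obtain ⟨w, hw, rfl⟩ := hf
      rw [← h1 i hi w hw]
      exact h0 i hi w hw
  have hprod : ∀ i ∈ T, ∏ w ∈ fb i, φ i w
      = ∏ f ∈ R, Φ f ^ ((fb i).filter fun w => deg i w = f).card := by
    intro i hi
    rw [Finset.prod_congr rfl (h1 i hi),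
      ← Finset.prod_fiberwise_of_maps_to (hmaps i hi)]
    refine Finset.prod_congr rfl fun f _ => ?_
    rw [Finset.prod_congr rfl (g := fun _ => Φ f)]
    · rw [Finset.prod_const]
    · intro w hw
      rw [Finset.mem_filter] at hw
      rw [hw.2]
  calc ∏ i ∈ T, (∏ w ∈ fb i, φ i w) ^ n i
      = ∏ i ∈ T, ∏ f ∈ R, Φ f ^ (n i * (((fb i).filter fun w => deg i w = f).card : ℤ)) := by
        refine Finset.prod_congr rfl fun i hi => ?_
        rw [hprod i hi, ← Finset.prod_zpow]
        refine Finset.prod_congr rfl fun f _ => ?_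
        rw [← zpow_natCast, ← zpow_mul, mul_comm]
    _ = ∏ f ∈ R, ∏ i ∈ T, Φ f ^ (n i * (((fb i).filter fun w => deg i w = f).card : ℤ)) :=
        Finset.prod_comm
    _ = ∏ f ∈ R, Φ f ^ (if f = 1 then 1 else 0 : ℤ) := by
        refine Finset.prod_congr rfl fun f hf => ?_
        rw [← hrel f, prod_zpow_sum (hRne f hf)]
    _ = Φ 1 := by
        rw [Finset.prod_eq_single 1]
        · simp
        · intro f _ hf
          simp [hf]
        · intro h
          exact absurd (Finset.mem_insert_self 1 _) h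

/-! ### The main theorem -/

theorem main (hS : Solomon_S) (hP : Primes_S) (hC : Curves_S) (hMin : Minimal_S) : Main_S := by
  classical
  intro K M _ _ _ _ _ _ E _ hF W hW
  haveI : FiniteDimensional K M := Module.Finite.of_restrictScalars_finite ℚ K M
  obtain ⟨T, n, hT, hn⟩ := hS Gal(M/K)
  obtain ⟨S1, hS1, hprimes⟩ := hP K M T n hn
  obtain ⟨S2, hS2, hcurves⟩ := hC K E
  have hmod : ∀ (H : Subgroup Gal(M/K))
      (w : HeightOneSpectrum (𝓞 (IntermediateField.fixedField H))),
      ∃ V : WeierstrassCurve (𝓞 (IntermediateField.fixedField H)),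
        IsMinimalAt (E.map (algebraMap K (IntermediateField.fixedField H))) V w :=
    fun H w => hMin _ _ w
  choose V hV using hmod
  have hcont : ∀ H ∈ T, ∃ f : ℂ → ℂ, MeromorphicOn f Set.univ ∧ ∀ s : ℂ, 2 < s.re →
      f s = ∏' w : HeightOneSpectrum (𝓞 (IntermediateField.fixedField H)),
        factor (V H w) w s := fun H hH =>
    hF (IntermediateField.fixedField H)
      (isHyper_of_equiv (IntermediateField.subgroupEquivAlgEquiv H) (hT H hH)) (V H) (hV H)
  choose! f hfm hfs using hcont
  set S : Finset (HeightOneSpectrum (𝓞 K)) := (hS1.union hS2).toFinset with hSdef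
  set P : HeightOneSpectrum (𝓞 K) → ℂ → ℂ := fun v s => ∏ H ∈ T,
    (∏ w ∈ fib (IntermediateField.fixedField H) v, factor (V H w) w s) ^ n H with hPdef
  refine ⟨fun s => (∏ v ∈ S, factor (W v) v s / P v s) * ∏ H ∈ T, (f H s) ^ n H, ?_, ?_⟩
  · refine MeromorphicOn.fun_mul ?_ ?_
    · refine MeromorphicOn.fun_prod fun v _ => ?_
      refine MeromorphicOn.fun_div (factor_mero (W v) v) ?_
      refine MeromorphicOn.fun_prod fun H _ => ?_
      refine MeromorphicOn.fun_zpow ?_ _
      exact MeromorphicOn.fun_prod fun w _ => factor_mero (V H w) w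
    · refine MeromorphicOn.fun_prod fun H hH => ?_
      exact MeromorphicOn.fun_zpow (hfm H hH) _
  · intro s hs
    obtain ⟨hmK, hneK, -⟩ := conv K W s hs
    -- the Euler products over the fields `M^H`, regrouped
    have hH : ∀ H ∈ T, HasProd (fun v : HeightOneSpectrum (𝓞 K) =>
        (∏ w ∈ fib (IntermediateField.fixedField H) v, factor (V H w) w s) ^ n H)
        ((f H s) ^ n H) := by
      intro H hH
      obtain ⟨hm, -, hne⟩ := conv (IntermediateField.fixedField H) (V H) s hs
      have h1 := hasProd_fib (K := K) hm.hasProd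
      rw [← hfs H hH s hs] at h1 hne
      exact hasProd_zpow' h1 hne _
    have hPprod : HasProd (fun v : HeightOneSpectrum (𝓞 K) => P v s) (∏ H ∈ T, (f H s) ^ n H) :=
      hasProd_prod hH
    have hPne : ∀ v, P v s ≠ 0 := by
      intro v
      refine Finset.prod_ne_zero_iff.mpr fun H _ => zpow_ne_zero _ ?_
      refine Finset.prod_ne_zero_iff.mpr fun w _ => ?_
      exact (conv (IntermediateField.fixedField H) (V H) s hs).2.1 w
    -- good primes
    have hgood : ∀ v, v ∉ S → factor (W v) v s = P v s := by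
      intro v hv
      rw [hSdef, Set.Finite.mem_toFinset, Set.mem_union, not_or] at hv
      obtain ⟨Φ, hΦ⟩ := hcurves v hv.2
      have hself : v.asIdeal.LiesOver v.asIdeal := ⟨by simp [Ideal.under]⟩
      have hmapid : E.map (algebraMap K K) = E := by
        rw [Algebra.algebraMap_self]
        exact WeierstrassCurve.map_id E
      have hK : ∀ s : ℂ, factor (W v) v s = Φ (v.asIdeal.inertiaDeg (𝓞 K)) s :=
        hΦ K v (W v) hself (by rw [hmapid]; exact hW v)
      have hdeg : v.asIdeal.inertiaDeg (𝓞 K) = 1 := by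
        have h1 := Ideal.inertiaDeg_tower (R := 𝓞 K) (S := 𝓞 K) (T := 𝓞 K) v.asIdeal v.asIdeal
        have h2 : 0 < v.asIdeal.inertiaDeg (𝓞 K) := Ideal.inertiaDeg_pos _ _
        exact (Nat.eq_of_mul_eq_mul_left h2 (by rw [mul_one]; exact h1)).symm
      rw [hdeg] at hK
      rw [hK s, hPdef]
      symm
      refine local_identity T n (fun H => fib (IntermediateField.fixedField H) v)
        (fun H w => factor (V H w) w s)
        (fun H w => w.asIdeal.inertiaDeg (𝓞 K)) (fun d => Φ d s) ?_ ?_ ?_ ?_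
      · intro H _ w hw
        exact hΦ (IntermediateField.fixedField H) w (V H w) ((mem_fib v w).mp hw) (hV H w) s
      · intro H _ w _
        exact (conv (IntermediateField.fixedField H) (V H) s hs).2.1 w
      · rw [← hK s]
        exact hneK v
      · intro d
        rw [← hprimes v hv.1 d]
        refine Finset.sum_congr rfl fun H _ => ?_
        congr 2
        refine (Nat.subtype_card _ fun w => ?_).symm
        rw [Finset.mem_filter, mem_fib]
    -- conclusion
    have hR : HasProd (fun v => factor (W v) v s / P v s) (∏ v ∈ S, factor (W v) v s / P v s) := by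
      refine hasProd_prod_of_ne_finset_one fun v hv => ?_
      rw [hgood v hv, div_self (hPne v)]
    have hall := hR.mul hPprod
    have heq : (fun v => factor (W v) v s / P v s * P v s) = fun v => factor (W v) v s := by
      funext v
      exact div_mul_cancel₀ _ (hPne v)
    rw [heq] at hall
    exact hall.tprod_eq.symm

end Pool.Agent.MP_0d9be2.H15
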