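import Pool.Agent.Lib.MP_0d9be2_nt.H15.Half
import Pool.Agent.Lib.MP_0d9be2_nt.H36.SolomonP

/-!
# MP_0d9be2_nt: the main theorem with a twist (PART 5.5)
-/

set_option autoImplicit false

open scoped NumberField
open IsDedekindDomain

namespace Pool.Agent.MP_0d9be2.H15

theorem isHyper_iff (G : Type) [Group G] :
    IsHyperElementary G ↔ ∃ p : ℕ, p.Prime ∧ H36.IsPHyper p G := by
  constructor
  · rintro ⟨p, C, hp, hC, hcyc, hcop, hk⟩
    exact ⟨p, hp, C, hC, hcyc, (Nat.Prime.coprime_iff_not_dvd hp).mp hcop, hk⟩
  · rintro ⟨p, hp, C, hC, hcyc, hdvd, hk⟩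
    exact ⟨p, C, hp, hC, hcyc, (Nat.Prime.coprime_iff_not_dvd hp).mpr hdvd, hk⟩

theorem isHyper_of_injective {G G' : Type} [Group G] [Group G'] (f : G →* G')
    (hf : Function.Injective f) (h : IsHyperElementary G') : IsHyperElementary G := by
  rw [isHyper_iff] at h ⊢
  obtain ⟨p, hp, h⟩ := h
  exact ⟨p, hp, h.of_injective hp f hf⟩

theorem isTwist_map {K F : Type} [Field K] [Field F] [Algebra K F]
    {d : K} {E E' : WeierstrassCurve K} (h : IsTwist d E E') :
    IsTwist (algebraMap K F d) (E.map (algebraMap K F)) (E'.map (algebraMap K F)) := by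
  obtain ⟨A, B, C, C', hC, hC'⟩ := h
  have hsm : ∀ a b : K, (short a b).map (algebraMap K F)
      = short (algebraMap K F a) (algebraMap K F b) := by
    intro a b
    unfold short WeierstrassCurve.map
    simp
  refine ⟨algebraMap K F A, algebraMap K F B, C.map (algebraMap K F), C'.map (algebraMap K F),
    ?_, ?_⟩
  · rw [WeierstrassCurve.map_variableChange, hC, hsm]
  · rw [WeierstrassCurve.map_variableChange, hC', hsm]
    simp only [map_mul, map_pow]

/-- A twist by a nonzero square is isomorphic to the curve. -/
theorem continues_of_sq {K : Type} [Field K] [NumberField K] {d x : K} {E E' : WeierstrassCurve K}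
    (hd : d ≠ 0) (hx : x ^ 2 = d) (h : IsTwist d E E') (hE : Continues E) : Continues E' := by
  obtain ⟨A, B, C, C', hC, hC'⟩ := h
  have hx0 : x ≠ 0 := by
    rintro rfl
    exact hd (by rw [← hx]; ring)
  have h1 : ((⟨(Units.mk0 x hx0)⁻¹, 0, 0, 0⟩ : WeierstrassCurve.VariableChange K) * C) • E
      = short (d ^ 2 * A) (d ^ 3 * B) := by
    rw [mul_smul, hC, short_scale, ← hx]
    simp only [Units.val_mk0]
    congr 1 <;> ring
  rw [continues_congr C' hC', ← continues_congr _ h1]
  exact hE

/-- The restriction of a tower: `Gal(M/F')` embeds in `Gal(M/F)`. -/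
theorem hyper_restrict {K M : Type} [Field K] [Field M] [Algebra K M]
    (F : IntermediateField K M) (F' : IntermediateField F M)
    (h : IsHyperElementary Gal(M/F)) : IsHyperElementary Gal(M/(F'.restrictScalars K)) := by
  refine isHyper_of_injective
    { toFun := fun σ => (({ σ with commutes' := fun x => ?_ } : M ≃ₐ[F] M) : Gal(M/F))
      map_one' := rfl
      map_mul' := fun _ _ => rfl } ?_ h
  · have h1 : algebraMap F M x ∈ F'.restrictScalars K := by
      rw [IntermediateField.mem_restrictScalars]
      exact F'.algebraMap_mem x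
    exact σ.commutes (⟨_, h1⟩ : F'.restrictScalars K)
  · intro σ τ hστ
    ext x
    exact DFunLike.congr_fun hστ x

theorem main2 (hMain : Main_S) (hHalf : Half_S) : Main2_S := by
  classical
  intro K M _ _ _ _ _ _ E E' _ _ d hd hT hx hF
  haveI : FiniteDimensional K M := Module.Finite.of_restrictScalars_finite ℚ K M
  refine hMain K M E' fun F hFh => ?_
  have hTF := isTwist_map (F := F) hT
  have hdF : algebraMap K F d ≠ 0 := by
    rw [Ne, map_eq_zero]
    exact hd
  have hEF := hF F hFh
  by_cases hsq : ∃ y : F, y ^ 2 = algebraMap K F d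
  · obtain ⟨y, hy⟩ := hsq
    exact continues_of_sq hdF hy hTF hEF
  · obtain ⟨x, hx⟩ := hx
    have hx' : x ^ 2 = algebraMap F M (algebraMap K F d) := by
      rw [hx, ← IsScalarTower.algebraMap_apply K F M]
    set F' : IntermediateField F M := IntermediateField.adjoin F {x} with hF'
    have hxF' : x ∈ F' := IntermediateField.mem_adjoin_simple_self F x
    have h1 : Continues (E.map (algebraMap K F')) :=
      hF (F'.restrictScalars K) (hyper_restrict F F' hFh)
    have h2 : (E.map (algebraMap K F)).map (algebraMap F F') = E.map (algebraMap K F') := by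
      rw [WeierstrassCurve.map_map, ← IsScalarTower.algebraMap_eq K F F']
    have hfin : Module.finrank F F' = 2 := by
      have hint : IsIntegral F x := Algebra.IsIntegral.isIntegral x
      rw [hF', IntermediateField.adjoin.finrank hint]
      have hirr : Irreducible (Polynomial.X ^ 2 - Polynomial.C (algebraMap K F d)) := by
        rw [Polynomial.irreducible_iff_roots_eq_zero_of_degree_le_three]
        · rw [Multiset.eq_zero_iff_forall_notMem]
          intro y hy
          rw [Polynomial.mem_roots'] at hy
          refine hsq ⟨y, ?_⟩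
          have := hy.2
          simp only [Polynomial.IsRoot.def, Polynomial.eval_sub, Polynomial.eval_pow,
            Polynomial.eval_X, Polynomial.eval_C] at this
          exact sub_eq_zero.mp this
        · rw [Polynomial.natDegree_X_pow_sub_C]
        · rw [Polynomial.natDegree_X_pow_sub_C]
          norm_num
      have hmin : minpoly F x = Polynomial.X ^ 2 - Polynomial.C (algebraMap K F d) := by
        symm
        refine minpoly.eq_of_irreducible_of_monic hirr ?_ (Polynomial.monic_X_pow_sub_C _ two_ne_zero)
        simp [hx']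
      rw [hmin, Polynomial.natDegree_X_pow_sub_C]
    refine hHalf F F' (E.map (algebraMap K F)) (E'.map (algebraMap K F)) (algebraMap K F d) hdF hTF
      hfin ⟨⟨x, hxF'⟩, ?_⟩ hsq hEF ?_
    · apply Subtype.ext
      exact hx'
    · rw [h2]
      exact h1

end Pool.Agent.MP_0d9be2.H15
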