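import Pool.Agent.Lib.MP_0d9be2_nt.H15.Rel

/-!
# MP_0d9be2_nt: from powers prime to every `p` to the `L`-function itself
-/

set_option autoImplicit false

open scoped NumberField
open IsDedekindDomain

namespace Pool.Agent.MP_0d9be2.H15

/-- If for every prime `p` some power of `L(E/K, s)` with exponent prime to `p` has a meromorphic
continuation, then `L(E/K, s)` has one. -/
theorem continues_of_powers {K : Type} [Field K] [NumberField K] (E : WeierstrassCurve K)
    (h : ∀ p : ℕ, p.Prime → ∃ k : ℕ, Nat.Coprime p k ∧ PowerContinues E k) : Continues E := by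
  intro W hW
  set L : ℂ → ℂ := fun s => ∏' p : HeightOneSpectrum (𝓞 K), factor (W p) p s with hL
  have hne : ∀ s : ℂ, 2 < s.re → L s ≠ 0 := fun s hs => (conv K W s hs).2.2
  let I : AddSubgroup ℤ :=
    { carrier := {k | ∃ f : ℂ → ℂ, MeromorphicOn f Set.univ ∧ ∀ s : ℂ, 2 < s.re → f s = L s ^ k}
      add_mem' := by
        rintro a b ⟨f, hf, hfs⟩ ⟨g, hg, hgs⟩
        refine ⟨fun s => f s * g s, MeromorphicOn.fun_mul hf hg, fun s hs => ?_⟩
        beta_reduce
        rw [hfs s hs, hgs s hs, zpow_add₀ (hne s hs)]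
      zero_mem' := ⟨fun _ => 1, fun z _ => MeromorphicAt.const 1 z, fun s _ => by rw [zpow_zero]⟩
      neg_mem' := by
        rintro a ⟨f, hf, hfs⟩
        refine ⟨fun s => (f s)⁻¹, MeromorphicOn.fun_inv hf, fun s hs => ?_⟩
        beta_reduce
        rw [hfs s hs, zpow_neg] }
  obtain ⟨a, ha⟩ := Int.subgroup_cyclic I
  have hdvd : ∀ p : ℕ, p.Prime → ∃ k : ℕ, Nat.Coprime p k ∧ a ∣ (k : ℤ) := by
    intro p hp
    obtain ⟨k, hk, hkc⟩ := h p hp
    refine ⟨k, hk, ?_⟩
    have hkI : (k : ℤ) ∈ I := by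
      obtain ⟨f, hf, hfs⟩ := hkc W hW
      refine ⟨f, hf, fun s hs => ?_⟩
      rw [zpow_natCast]
      exact hfs s hs
    rw [ha, AddSubgroup.mem_closure_singleton] at hkI
    obtain ⟨z, hz⟩ := hkI
    exact ⟨z, by rw [← hz, smul_eq_mul, mul_comm]⟩
  have ha1 : a.natAbs = 1 := by
    by_contra hcon
    obtain ⟨p, hp, hpa⟩ := Nat.exists_prime_and_dvd hcon
    obtain ⟨k, hk, hak⟩ := hdvd p hp
    have h1 : p ∣ k := by
      have h2 : a.natAbs ∣ k := by
        have := Int.natAbs_dvd_natAbs.mpr hak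
        simpa using this
      exact hpa.trans h2
    exact hp.one_lt.ne' (Nat.Coprime.eq_one_of_dvd hk h1)
  have h1I : (1 : ℤ) ∈ I := by
    rw [ha, AddSubgroup.mem_closure_singleton]
    rcases Int.natAbs_eq_iff.mp ha1 with h2 | h2
    · exact ⟨1, by rw [h2]; rfl⟩
    · exact ⟨-1, by rw [h2]; rfl⟩
  obtain ⟨f, hf, hfs⟩ := h1I
  refine ⟨f, hf, fun s hs => ?_⟩
  rw [hfs s hs, zpow_one]

theorem power_of_continues {K : Type} [Field K] [NumberField K] (E : WeierstrassCurve K)
    (h : Continues E) (k : ℕ) : PowerContinues E k := by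
  intro W hW
  obtain ⟨f, hf, hfs⟩ := h W hW
  refine ⟨fun s => f s ^ k, MeromorphicOn.fun_pow hf k, fun s hs => ?_⟩
  beta_reduce
  rw [hfs s hs]

/-- If for every prime `p` there is a relation with constant prime to `p` over some finite Galois
extension such that all the `L`-functions in it continue, then `L(E/K, s)` continues. -/
theorem continues_of_relations (hP : Primes_S) (hC : Curves_S) (hMin : Minimal_S)
    {K : Type} [Field K] [NumberField K] (E : WeierstrassCurve K) [E.IsElliptic]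
    (h : ∀ p : ℕ, p.Prime → ∃ (M : Type) (_ : Field M) (_ : NumberField M) (_ : Algebra K M)
      (_ : IsGalois K M) (T : Finset (Subgroup Gal(M/K))) (n : Subgroup Gal(M/K) → ℤ) (m : ℕ),
      (∀ g : Gal(M/K), ∑ H ∈ T, n H * (Nat.card {x : Gal(M/K) ⧸ H // g • x = x} : ℤ) = m) ∧
      ¬ p ∣ m ∧ ∀ H ∈ T, ∃ k : ℕ, ¬ p ∣ k ∧
        PowerContinues (E.map (algebraMap K (IntermediateField.fixedField H))) k) :
    Continues E := by
  refine continues_of_powers E fun p hp => ?_
  obtain ⟨M, _, _, _, _, T, n, m, hn, hm, hT⟩ := h p hp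
  refine power_of_relation hP hC hMin K M E T n m p hn ((Nat.Prime.coprime_iff_not_dvd hp).mpr hm)
    fun H hH => ?_
  obtain ⟨k, hk, hkc⟩ := hT H hH
  exact ⟨k, (Nat.Prime.coprime_iff_not_dvd hp).mpr hk, hkc⟩

end Pool.Agent.MP_0d9be2.H15
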