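import Pool.Agent.Lib.MP_0d9be2_nt.H15.Mul
import Pool.Agent.Lib.MP_0d9be2_nt.H7.Model

/-!
# MP_0d9be2_nt: primes in a quadratic extension (PART 5.3)
-/

set_option autoImplicit false

open scoped NumberField
open IsDedekindDomain

namespace Pool.Agent.MP_0d9be2.H15

variable {K L : Type} [Field K] [NumberField K] [Field L] [NumberField L] [Algebra K L]

theorem sum_ef (v : HeightOneSpectrum (𝓞 K)) :
    ∑ w ∈ fib L v, w.asIdeal.ramificationIdx (𝓞 K) * w.asIdeal.inertiaDeg (𝓞 K)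
      = Module.finrank K L := by
  classical
  haveI : Module.Finite (𝓞 K) (𝓞 L) := inferInstance
  haveI : Finite (v.asIdeal.primesOver (𝓞 L)) :=
    (IsDedekindDomain.primesOver_finite v.asIdeal (𝓞 L)).to_subtype
  letI : Fintype (v.asIdeal.primesOver (𝓞 L)) := Fintype.ofFinite _
  have h := Ideal.sum_ramification_inertia_eq_finrank v.asIdeal (𝓞 L)
  rw [IsFractionRing.finrank_eq (𝓞 K) K (𝓞 L) L, ← h]
  symm
  have hne : ∀ q : v.asIdeal.primesOver (𝓞 L), q.1 ≠ ⊥ := by
    intro q hq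
    haveI := q.2.2
    refine v.ne_bot ?_
    rw [(q.2.2).over, hq]
    exact Ideal.under_bot _ _
  refine Finset.sum_bij (fun q _ => (⟨q.1, q.2.1, hne q⟩ : HeightOneSpectrum (𝓞 L))) ?_ ?_ ?_ ?_
  · intro q _
    rw [mem_fib]
    exact q.2.2
  · intro q _ q' _ hqq
    exact Subtype.ext (congrArg HeightOneSpectrum.asIdeal hqq)
  · intro w hw
    rw [mem_fib] at hw
    exact ⟨⟨w.asIdeal, w.isPrime, hw⟩, Finset.mem_univ _, HeightOneSpectrum.ext rfl⟩
  · intro q _
    rfl

/-- A prime of residue degree one: every element is congruent to an element of the base. -/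
theorem exists_sub_mem (v : HeightOneSpectrum (𝓞 K)) (w : HeightOneSpectrum (𝓞 L))
    (h : w.asIdeal.LiesOver v.asIdeal) (hf : w.asIdeal.inertiaDeg (𝓞 K) = 1) (x : 𝓞 L) :
    ∃ a : 𝓞 K, x - algebraMap (𝓞 K) (𝓞 L) a ∈ w.asIdeal := by
  haveI := h
  haveI := v.isMaximal
  haveI := w.isMaximal
  have h1 := Ideal.inertiaDeg_eq_of_isMaximal v.asIdeal w.asIdeal
  rw [hf] at h1
  letI : Field (𝓞 K ⧸ v.asIdeal) := Ideal.Quotient.field v.asIdeal
  have h2 := (finrank_eq_one_iff_of_nonzero' (K := 𝓞 K ⧸ v.asIdeal)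
    (1 : 𝓞 L ⧸ w.asIdeal) one_ne_zero).mp h1.symm (Ideal.Quotient.mk _ x)
  obtain ⟨c, hc⟩ := h2
  obtain ⟨a, rfl⟩ := Ideal.Quotient.mk_surjective c
  refine ⟨a, ?_⟩
  rw [← Ideal.Quotient.eq, ← hc, Algebra.smul_def, mul_one]
  rfl

/-- Primes in a quadratic extension. -/
theorem quad (h2 : Module.finrank K L = 2) (d : 𝓞 K) (hd : ¬ IsSquare (d : K)) (δ : 𝓞 L)
    (hδ : δ ^ 2 = algebraMap (𝓞 K) (𝓞 L) d) (v : HeightOneSpectrum (𝓞 K))
    (hv : 2 * d ∉ v.asIdeal) :
    (IsSquare (Ideal.Quotient.mk v.asIdeal d) ∧ ∃ w₁ w₂ : HeightOneSpectrum (𝓞 L), w₁ ≠ w₂ ∧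
      (∀ w, w ∈ fib L v ↔ w = w₁ ∨ w = w₂) ∧ w₁.asIdeal.inertiaDeg (𝓞 K) = 1 ∧ w₂.asIdeal.inertiaDeg (𝓞 K) = 1) ∨
    (¬ IsSquare (Ideal.Quotient.mk v.asIdeal d) ∧ ∃ w : HeightOneSpectrum (𝓞 L),
      fib L v = {w} ∧ w.asIdeal.inertiaDeg (𝓞 K) = 2) := by
  classical
  haveI : FiniteDimensional K L := Module.finite_of_finrank_pos (by omega)
  haveI : Algebra.IsQuadraticExtension K L := ⟨h2⟩
  haveI : Module.Finite (𝓞 K) (𝓞 L) := inferInstance
  have hsum := sum_ef (L := L) v
  rw [h2] at hsum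
  have hpos : ∀ w : HeightOneSpectrum (𝓞 L), 0 < w.asIdeal.ramificationIdx (𝓞 K) ∧
      0 < w.asIdeal.inertiaDeg (𝓞 K) :=
    fun w => ⟨Ideal.ramificationIdx_pos _ _, Ideal.inertiaDeg_pos _ _⟩
  have hne : (fib L v).Nonempty := by
    by_contra h
    rw [Finset.not_nonempty_iff_eq_empty] at h
    rw [h] at hsum
    simp at hsum
  obtain ⟨w₀, hw₀⟩ := hne
  have hover : ∀ w ∈ fib L v, ∀ x : 𝓞 K, algebraMap (𝓞 K) (𝓞 L) x ∈ w.asIdeal → x ∈ v.asIdeal := by
    intro w hw x hx
    have := (mem_fib v w).mp hw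
    rw [this.over]
    exact hx
  by_cases hsq : IsSquare (Ideal.Quotient.mk v.asIdeal d)
  · left
    refine ⟨hsq, ?_⟩
    obtain ⟨b, hb⟩ := hsq
    obtain ⟨a, rfl⟩ := Ideal.Quotient.mk_surjective b
    rw [← map_mul, Ideal.Quotient.eq] at hb
    -- the automorphism
    have hσ : ∃ σ : Gal(L/K), σ (δ : L) = -(δ : L) := by
      by_contra hcon
      push Not at hcon
      have hδ' : (δ : L) ^ 2 = algebraMap K L (d : K) := by
        have := congrArg (algebraMap (𝓞 L) L) hδ
        rw [map_pow] at this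
        exact this
      have hfix : ∀ σ : Gal(L/K), σ (δ : L) = (δ : L) := by
        intro σ
        have h3 : (σ (δ : L)) ^ 2 = (δ : L) ^ 2 := by
          rw [← map_pow, hδ', AlgEquiv.commutes]
        rcases sq_eq_sq_iff_eq_or_eq_neg.mp h3 with h4 | h4
        · exact h4
        · exact absurd h4 (hcon σ)
      obtain ⟨x, hx⟩ := (IsGalois.mem_range_algebraMap_iff_fixed (δ : L)).mpr hfix
      refine hd ⟨x, ?_⟩
      apply (algebraMap K L).injective
      rw [← hδ', map_mul, hx, sq]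
    obtain ⟨σ, hσ⟩ := hσ
    set φ := galRestrict (𝓞 K) K L (𝓞 L) σ with hφ
    have hφδ : φ δ = -δ := by
      apply NumberField.RingOfIntegers.coe_injective
      have := algebraMap_galRestrict_apply (𝓞 K) σ δ
      rw [hφ]
      refine this.trans ?_
      rw [map_neg]
      exact hσ
    have hcase : ∀ w ∈ fib L v, ∃ c : 𝓞 K, d - c * c ∈ v.asIdeal ∧
        δ - algebraMap (𝓞 K) (𝓞 L) c ∈ w.asIdeal := by
      intro w hw
      have h3 : (δ - algebraMap (𝓞 K) (𝓞 L) a) * (δ + algebraMap (𝓞 K) (𝓞 L) a)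
          = algebraMap (𝓞 K) (𝓞 L) (d - a * a) := by
        rw [map_sub, ← hδ, map_mul]
        ring
      have h4 : (δ - algebraMap (𝓞 K) (𝓞 L) a) * (δ + algebraMap (𝓞 K) (𝓞 L) a) ∈ w.asIdeal := by
        rw [h3]
        have := (mem_fib v w).mp hw
        rw [this.over] at hb
        exact hb
      rcases w.isPrime.mem_or_mem h4 with h5 | h5
      · exact ⟨a, hb, h5⟩
      · refine ⟨-a, ?_, ?_⟩
        · rw [neg_mul_neg]
          exact hb
        · rw [map_neg, sub_neg_eq_add]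
          exact h5
    obtain ⟨c, hc, hcw⟩ := hcase w₀ hw₀
    -- the conjugate prime
    have hφcomm : ∀ x : 𝓞 K, φ (algebraMap (𝓞 K) (𝓞 L) x) = algebraMap (𝓞 K) (𝓞 L) x :=
      fun x => φ.commutes x
    have hI : (Ideal.comap φ w₀.asIdeal).IsPrime := Ideal.comap_isPrime φ w₀.asIdeal
    have hover0 := (mem_fib v w₀).mp hw₀
    have hI2 : (Ideal.comap φ w₀.asIdeal).LiesOver v.asIdeal := by
      refine ⟨?_⟩
      rw [hover0.over]
      ext x
      simp only [Ideal.under, Ideal.mem_comap]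
      rw [hφcomm]
    have hI3 : Ideal.comap φ w₀.asIdeal ≠ ⊥ := by
      intro h
      refine v.ne_bot ?_
      rw [hI2.over, h]
      exact Ideal.under_bot _ _
    set w₁ : HeightOneSpectrum (𝓞 L) := ⟨Ideal.comap φ w₀.asIdeal, hI, hI3⟩ with hw₁def
    have hw₁ : w₁ ∈ fib L v := (mem_fib v w₁).mpr hI2
    have hne : w₀ ≠ w₁ := by
      intro h
      have h6 : δ + algebraMap (𝓞 K) (𝓞 L) c ∈ w₁.asIdeal := by
        change φ (δ + algebraMap (𝓞 K) (𝓞 L) c) ∈ w₀.asIdeal
        rw [map_add, hφδ, hφcomm]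
        have : -δ + algebraMap (𝓞 K) (𝓞 L) c = -(δ - algebraMap (𝓞 K) (𝓞 L) c) := by ring
        rw [this]
        exact Ideal.neg_mem_iff _ |>.mpr hcw
      rw [← h] at h6
      have h7 : algebraMap (𝓞 K) (𝓞 L) (2 * c) ∈ w₀.asIdeal := by
        have := Ideal.sub_mem _ h6 hcw
        have h8 : δ + algebraMap (𝓞 K) (𝓞 L) c - (δ - algebraMap (𝓞 K) (𝓞 L) c)
            = algebraMap (𝓞 K) (𝓞 L) (2 * c) := by
          rw [map_mul, map_ofNat]
          ring
        rwa [h8] at this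
      have h9 := hover w₀ hw₀ _ h7
      refine hv ?_
      have h10 : 2 * d = 2 * (d - c * c) + c * (2 * c) := by ring
      rw [h10]
      exact Ideal.add_mem _ (Ideal.mul_mem_left _ _ hc) (Ideal.mul_mem_left _ _ h9)
    have hle : ∀ w ∈ fib L v, 1 ≤ w.asIdeal.ramificationIdx (𝓞 K) * w.asIdeal.inertiaDeg (𝓞 K) := by
      intro w hw
      have h3 := (hpos w).2
      have h4 := (hpos w).1
      nlinarith
    have hall : ∀ w, w ∈ fib L v ↔ w = w₀ ∨ w = w₁ := by
      intro w
      constructor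
      · intro hw
        by_contra hcon
        rw [not_or] at hcon
        have h6 : ∑ x ∈ ({w, w₀, w₁} : Finset _), x.asIdeal.ramificationIdx (𝓞 K)
            * x.asIdeal.inertiaDeg (𝓞 K) ≤ 2 := by
          rw [← hsum]
          refine Finset.sum_le_sum_of_subset ?_
          intro x hx
          rw [Finset.mem_insert, Finset.mem_insert, Finset.mem_singleton] at hx
          rcases hx with rfl | rfl | rfl
          · exact hw
          · exact hw₀
          · exact hw₁
        rw [Finset.sum_insert (by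
          rw [Finset.mem_insert, Finset.mem_singleton, not_or]
          exact hcon), Finset.sum_pair hne] at h6
        have := hle w hw
        have := hle w₀ hw₀
        have := hle w₁ hw₁
        omega
      · rintro (rfl | rfl)
        · exact hw₀
        · exact hw₁
    have hfib : fib L v = {w₀, w₁} := by
      ext w
      rw [Finset.mem_insert, Finset.mem_singleton]
      exact hall w
    rw [hfib, Finset.sum_pair hne] at hsum
    have h11 := hpos w₀
    have h12 := hpos w₁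
    refine ⟨w₀, w₁, hne, hall, ?_, ?_⟩
    · nlinarith
    · nlinarith
  · right
    refine ⟨hsq, w₀, ?_⟩
    have hf : ∀ w ∈ fib L v, 2 ≤ w.asIdeal.inertiaDeg (𝓞 K) := by
      intro w hw
      by_contra hcon
      have hf1 : w.asIdeal.inertiaDeg (𝓞 K) = 1 := by
        have := (hpos w).2
        omega
      obtain ⟨a, ha⟩ := exists_sub_mem v w ((mem_fib v w).mp hw) hf1 δ
      refine hsq ⟨Ideal.Quotient.mk _ a, ?_⟩
      rw [← map_mul, Ideal.Quotient.eq]
      apply hover w hw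
      have h3 : algebraMap (𝓞 K) (𝓞 L) (d - a * a)
          = (δ - algebraMap (𝓞 K) (𝓞 L) a) * (δ + algebraMap (𝓞 K) (𝓞 L) a) := by
        rw [map_sub, ← hδ, map_mul]
        ring
      rw [h3]
      exact Ideal.mul_mem_right _ _ ha
    have hle : ∀ w ∈ fib L v, 2 ≤ w.asIdeal.ramificationIdx (𝓞 K) * w.asIdeal.inertiaDeg (𝓞 K) := by
      intro w hw
      have h3 := hf w hw
      have h4 := (hpos w).1
      nlinarith
    have h5 : ∀ w ∈ fib L v, w = w₀ := by
      intro w hw
      by_contra hne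
      have h6 : ∑ x ∈ ({w, w₀} : Finset _), x.asIdeal.ramificationIdx (𝓞 K)
          * x.asIdeal.inertiaDeg (𝓞 K) ≤ 2 := by
        rw [← hsum]
        refine Finset.sum_le_sum_of_subset ?_
        intro x hx
        rw [Finset.mem_insert, Finset.mem_singleton] at hx
        rcases hx with rfl | rfl
        · exact hw
        · exact hw₀
      rw [Finset.sum_pair hne] at h6
      have := hle w hw
      have := hle w₀ hw₀
      omega
    have h7 : fib L v = {w₀} := by
      ext w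
      rw [Finset.mem_singleton]
      exact ⟨h5 w, fun h => h ▸ hw₀⟩
    refine ⟨h7, ?_⟩
    rw [h7, Finset.sum_singleton] at hsum
    have h8 := hf w₀ hw₀
    have h9 := (hpos w₀).1
    nlinarith

end Pool.Agent.MP_0d9be2.H15
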