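import Pool.Agent.Lib.MP_0d9be2_nt.H15.Main

/-!
# MP_0d9be2_nt: relations between the `L`-functions over intermediate fields
-/

set_option autoImplicit false

open scoped NumberField
open IsDedekindDomain

namespace Pool.Agent.MP_0d9be2

/-- The `m`-th power of `L(E/K, s)` has a meromorphic continuation to `ℂ`. -/
def PowerContinues {K : Type} [Field K] [NumberField K] (E : WeierstrassCurve K) (m : ℕ) : Prop :=
  ∀ W : HeightOneSpectrum (𝓞 K) → WeierstrassCurve (𝓞 K), (∀ p, IsMinimalAt E (W p) p) →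
    ∃ f : ℂ → ℂ, MeromorphicOn f Set.univ ∧
      ∀ s : ℂ, 2 < s.re → f s = (∏' p : HeightOneSpectrum (𝓞 K), factor (W p) p s) ^ m

end Pool.Agent.MP_0d9be2

namespace Pool.Agent.MP_0d9be2.H15

theorem continues_iff_power {K : Type} [Field K] [NumberField K] (E : WeierstrassCurve K) :
    Continues E ↔ PowerContinues E 1 := by
  unfold Continues PowerContinues
  simp only [pow_one]

/-- `Primes_S` with an arbitrary constant. -/
theorem primesM (hP : Primes_S) (K M : Type) [Field K] [NumberField K] [Field M] [NumberField M]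
    [Algebra K M] [IsGalois K M] (T : Finset (Subgroup Gal(M/K))) (n : Subgroup Gal(M/K) → ℤ)
    (m : ℤ)
    (hn : ∀ g : Gal(M/K), ∑ H ∈ T, n H * (Nat.card {x : Gal(M/K) ⧸ H // g • x = x} : ℤ) = m) :
    ∃ S : Set (HeightOneSpectrum (𝓞 K)), S.Finite ∧ ∀ v : HeightOneSpectrum (𝓞 K), v ∉ S →
      ∀ f : ℕ, ∑ H ∈ T, n H *
        (Nat.card {w : HeightOneSpectrum (𝓞 (IntermediateField.fixedField H)) //
          w.asIdeal.LiesOver v.asIdeal ∧ w.asIdeal.inertiaDeg (𝓞 K) = f} : ℤ) =
        if f = 1 then m else 0 := by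
  classical
  have htop : ∀ g : Gal(M/K), (Nat.card {x : Gal(M/K) ⧸ (⊤ : Subgroup Gal(M/K)) // g • x = x} : ℤ)
      = 1 := by
    intro g
    have h1 : ∀ x y : Gal(M/K) ⧸ (⊤ : Subgroup Gal(M/K)), x = y := by
      intro x y
      induction x using Quotient.inductionOn' with
      | _ a =>
        induction y using Quotient.inductionOn' with
        | _ b =>
          exact Quotient.sound' (by rw [QuotientGroup.leftRel_apply]; exact Subgroup.mem_top _)
    have h2 : Nat.card {x : Gal(M/K) ⧸ (⊤ : Subgroup Gal(M/K)) // g • x = x} = 1 := by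
      rw [Nat.card_eq_one_iff_unique]
      exact ⟨⟨fun a b => Subtype.ext (h1 _ _)⟩,
        ⟨⟨((1 : Gal(M/K)) : Gal(M/K) ⧸ (⊤ : Subgroup Gal(M/K))), h1 _ _⟩⟩⟩
    rw [h2]
    rfl
  -- the trivial relation
  obtain ⟨S1, hS1, h1⟩ := hP K M {⊤} (fun _ => 1) (by
    intro g
    rw [Finset.sum_singleton, htop, mul_one])
  -- the relation with constant one
  set n' : Subgroup Gal(M/K) → ℤ := fun H =>
    (if H ∈ T then n H else 0) + (if H = ⊤ then 1 - m else 0) with hn'
  have key : ∀ c : Subgroup Gal(M/K) → ℤ, ∑ H ∈ insert ⊤ T, n' H * c H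
      = ∑ H ∈ T, n H * c H + (1 - m) * c ⊤ := by
    intro c
    have e1 : ∀ H, n' H * c H = (if H ∈ T then n H * c H else 0)
        + (if H = ⊤ then (1 - m) * c H else 0) := by
      intro H
      simp only [hn']
      split_ifs <;> ring
    rw [Finset.sum_congr rfl fun H _ => e1 H, Finset.sum_add_distrib]
    congr 1
    · rw [Finset.sum_ite, Finset.sum_const_zero, add_zero]
      refine Finset.sum_congr ?_ fun _ _ => rfl
      ext H
      simp only [Finset.mem_filter, Finset.mem_insert]
      tauto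
    · rw [Finset.sum_ite_eq' (insert ⊤ T) (⊤ : Subgroup Gal(M/K)) (fun H => (1 - m) * c H),
        if_pos (Finset.mem_insert_self _ _)]
  obtain ⟨S2, hS2, h2⟩ := hP K M (insert ⊤ T) n' (by
    intro g
    rw [key fun H => (Nat.card {x : Gal(M/K) ⧸ H // g • x = x} : ℤ), hn g, htop g]
    ring)
  refine ⟨S1 ∪ S2, hS1.union hS2, fun v hv f => ?_⟩
  rw [Set.mem_union, not_or] at hv
  have e1 := h1 v hv.1 f
  have e2 := h2 v hv.2 f
  rw [Finset.sum_singleton, one_mul] at e1
  rw [key fun H => (Nat.card {w : HeightOneSpectrum (𝓞 (IntermediateField.fixedField H)) //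
          w.asIdeal.LiesOver v.asIdeal ∧ w.asIdeal.inertiaDeg (𝓞 K) = f} : ℤ), e1] at e2
  split_ifs at e2 ⊢ with hf
  · linarith
  · linarith

/-- The local identity at a good prime, with a constant. -/
theorem local_identityM {ι : Type*} (T : Finset ι) (n : ι → ℤ) {X : ι → Type*}
    (fb : ∀ i, Finset (X i)) (φ : ∀ i, X i → ℂ) (deg : ∀ i, X i → ℕ) (Φ : ℕ → ℂ) (m : ℤ)
    (h1 : ∀ i ∈ T, ∀ w ∈ fb i, φ i w = Φ (deg i w))
    (h0 : ∀ i ∈ T, ∀ w ∈ fb i, φ i w ≠ 0) (hΦ : Φ 1 ≠ 0)
    (hrel : ∀ f : ℕ, ∑ i ∈ T, n i * (((fb i).filter fun w => deg i w = f).card : ℤ)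
      = if f = 1 then m else 0) :
    ∏ i ∈ T, (∏ w ∈ fb i, φ i w) ^ n i = Φ 1 ^ m := by
  classical
  set R : Finset ℕ := insert 1 (T.biUnion fun i => (fb i).image (deg i)) with hR
  have hmaps : ∀ i ∈ T, ∀ w ∈ fb i, deg i w ∈ R := by
    intro i hi w hw
    rw [hR, Finset.mem_insert]
    right
    rw [Finset.mem_biUnion]
    exact ⟨i, hi, Finset.mem_image_of_mem _ hw⟩
  have hRne : ∀ f ∈ R, Φ f ≠ 0 := by
    intro f hf
    rw [hR, Finset.mem_insert] at hf
    rcases hf with rfl | hf
    · exact hΦ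
    · rw [Finset.mem_biUnion] at hf
      obtain ⟨i, hi, hf⟩ := hf
      rw [Finset.mem_image] at hf
      obtain ⟨w, hw, rfl⟩ := hf
      rw [← h1 i hi w hw]
      exact h0 i hi w hw
  have hprod : ∀ i ∈ T, ∏ w ∈ fb i, φ i w
      = ∏ f ∈ R, Φ f ^ ((fb i).filter fun w => deg i w = f).card := by
    intro i hi
    rw [Finset.prod_congr rfl (h1 i hi),
      ← Finset.prod_fiberwise_of_maps_to (hmaps i hi)]
    refine Finset.prod_congr rfl fun f _ => ?_
    rw [Finset.prod_congr rfl (g := fun _ => Φ f)]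
    · rw [Finset.prod_const]
    · intro w hw
      rw [Finset.mem_filter] at hw
      rw [hw.2]
  calc ∏ i ∈ T, (∏ w ∈ fb i, φ i w) ^ n i
      = ∏ i ∈ T, ∏ f ∈ R, Φ f ^ (n i * (((fb i).filter fun w => deg i w = f).card : ℤ)) := by
        refine Finset.prod_congr rfl fun i hi => ?_
        rw [hprod i hi, ← Finset.prod_zpow]
        refine Finset.prod_congr rfl fun f _ => ?_
        rw [← zpow_natCast, ← zpow_mul, mul_comm]
    _ = ∏ f ∈ R, ∏ i ∈ T, Φ f ^ (n i * (((fb i).filter fun w => deg i w = f).card : ℤ)) :=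
        Finset.prod_comm
    _ = ∏ f ∈ R, Φ f ^ (if f = 1 then m else 0 : ℤ) := by
        refine Finset.prod_congr rfl fun f hf => ?_
        rw [← hrel f, prod_zpow_sum (hRne f hf)]
    _ = Φ 1 ^ m := by
        rw [Finset.prod_eq_single 1]
        · simp
        · intro f _ hf
          simp [hf]
        · intro h
          exact absurd (Finset.mem_insert_self 1 _) h

/-- RELATIONS. If `∑ n_H #Fix(g on G/H) = m` for all `g`, then
`L(E/K, s) ^ m = R(s) ∏ L(E/M^H, s) ^ n_H` for `Re s > 2`, with `R` meromorphic on `ℂ` and nonzero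
for `Re s > 2`. -/
theorem relation (hP : Primes_S) (hC : Curves_S) (K M : Type) [Field K] [NumberField K]
    [Field M] [NumberField M] [Algebra K M] [IsGalois K M] (E : WeierstrassCurve K) [E.IsElliptic]
    (T : Finset (Subgroup Gal(M/K))) (n : Subgroup Gal(M/K) → ℤ) (m : ℤ)
    (hn : ∀ g : Gal(M/K), ∑ H ∈ T, n H * (Nat.card {x : Gal(M/K) ⧸ H // g • x = x} : ℤ) = m)
    (W : HeightOneSpectrum (𝓞 K) → WeierstrassCurve (𝓞 K)) (hW : ∀ v, IsMinimalAt E (W v) v)
    (V : ∀ (H : Subgroup Gal(M/K)), HeightOneSpectrum (𝓞 (IntermediateField.fixedField H)) →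
      WeierstrassCurve (𝓞 (IntermediateField.fixedField H)))
    (hV : ∀ H w, IsMinimalAt (E.map (algebraMap K (IntermediateField.fixedField H))) (V H w) w) :
    ∃ R : ℂ → ℂ, MeromorphicOn R Set.univ ∧ (∀ s : ℂ, 2 < s.re → R s ≠ 0) ∧
      ∀ s : ℂ, 2 < s.re → (∏' v : HeightOneSpectrum (𝓞 K), factor (W v) v s) ^ m =
        R s * ∏ H ∈ T, (∏' w : HeightOneSpectrum (𝓞 (IntermediateField.fixedField H)),
          factor (V H w) w s) ^ n H := by
  classical
  haveI : FiniteDimensional K M := Module.Finite.of_restrictScalars_finite ℚ K M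
  obtain ⟨S1, hS1, hprimes⟩ := primesM hP K M T n m hn
  obtain ⟨S2, hS2, hcurves⟩ := hC K E
  set S : Finset (HeightOneSpectrum (𝓞 K)) := (hS1.union hS2).toFinset with hSdef
  set P : HeightOneSpectrum (𝓞 K) → ℂ → ℂ := fun v s => ∏ H ∈ T,
    (∏ w ∈ fib (IntermediateField.fixedField H) v, factor (V H w) w s) ^ n H with hPdef
  have hPne : ∀ v (s : ℂ), 2 < s.re → P v s ≠ 0 := by
    intro v s hs
    refine Finset.prod_ne_zero_iff.mpr fun H _ => zpow_ne_zero _ ?_
    refine Finset.prod_ne_zero_iff.mpr fun w _ => ?_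
    exact (conv (IntermediateField.fixedField H) (V H) s hs).2.1 w
  refine ⟨fun s => ∏ v ∈ S, factor (W v) v s ^ m / P v s, ?_, ?_, ?_⟩
  · refine MeromorphicOn.fun_prod fun v _ => ?_
    refine MeromorphicOn.fun_div (MeromorphicOn.fun_zpow (factor_mero (W v) v) _) ?_
    refine MeromorphicOn.fun_prod fun H _ => ?_
    refine MeromorphicOn.fun_zpow ?_ _
    exact MeromorphicOn.fun_prod fun w _ => factor_mero (V H w) w
  · intro s hs
    refine Finset.prod_ne_zero_iff.mpr fun v _ => ?_
    exact div_ne_zero (zpow_ne_zero _ ((conv K W s hs).2.1 v)) (hPne v s hs)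
  · intro s hs
    obtain ⟨hmK, hneK, hneK'⟩ := conv K W s hs
    -- the Euler products over the fields `M^H`, regrouped
    have hH : ∀ H ∈ T, HasProd (fun v : HeightOneSpectrum (𝓞 K) =>
        (∏ w ∈ fib (IntermediateField.fixedField H) v, factor (V H w) w s) ^ n H)
        ((∏' w : HeightOneSpectrum (𝓞 (IntermediateField.fixedField H)),
          factor (V H w) w s) ^ n H) := by
      intro H hH
      obtain ⟨hm, -, hne⟩ := conv (IntermediateField.fixedField H) (V H) s hs
      exact hasProd_zpow' (hasProd_fib (K := K) hm.hasProd) hne _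
    have hPprod : HasProd (fun v : HeightOneSpectrum (𝓞 K) => P v s)
        (∏ H ∈ T, (∏' w : HeightOneSpectrum (𝓞 (IntermediateField.fixedField H)),
          factor (V H w) w s) ^ n H) :=
      hasProd_prod hH
    -- good primes
    have hgood : ∀ v, v ∉ S → factor (W v) v s ^ m = P v s := by
      intro v hv
      rw [hSdef, Set.Finite.mem_toFinset, Set.mem_union, not_or] at hv
      obtain ⟨Φ, hΦ⟩ := hcurves v hv.2
      have hself : v.asIdeal.LiesOver v.asIdeal := ⟨by simp [Ideal.under]⟩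
      have hmapid : E.map (algebraMap K K) = E := by
        rw [Algebra.algebraMap_self]
        exact WeierstrassCurve.map_id E
      have hK : ∀ s : ℂ, factor (W v) v s = Φ (v.asIdeal.inertiaDeg (𝓞 K)) s :=
        hΦ K v (W v) hself (by rw [hmapid]; exact hW v)
      have hdeg : v.asIdeal.inertiaDeg (𝓞 K) = 1 := by
        have h1 := Ideal.inertiaDeg_tower (R := 𝓞 K) (S := 𝓞 K) (T := 𝓞 K) v.asIdeal v.asIdeal
        have h2 : 0 < v.asIdeal.inertiaDeg (𝓞 K) := Ideal.inertiaDeg_pos _ _
        exact (Nat.eq_of_mul_eq_mul_left h2 (by rw [mul_one]; exact h1)).symm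
      rw [hdeg] at hK
      rw [hK s, hPdef]
      symm
      refine local_identityM T n (fun H => fib (IntermediateField.fixedField H) v)
        (fun H w => factor (V H w) w s)
        (fun H w => w.asIdeal.inertiaDeg (𝓞 K)) (fun d => Φ d s) m ?_ ?_ ?_ ?_
      · intro H _ w hw
        exact hΦ (IntermediateField.fixedField H) w (V H w) ((mem_fib v w).mp hw) (hV H w) s
      · intro H _ w _
        exact (conv (IntermediateField.fixedField H) (V H) s hs).2.1 w
      · rw [← hK s]
        exact hneK v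
      · intro d
        rw [← hprimes v hv.1 d]
        refine Finset.sum_congr rfl fun H _ => ?_
        congr 2
        refine (Nat.subtype_card _ fun w => ?_).symm
        rw [Finset.mem_filter, mem_fib]
    -- conclusion
    have hR : HasProd (fun v => factor (W v) v s ^ m / P v s)
        (∏ v ∈ S, factor (W v) v s ^ m / P v s) := by
      refine hasProd_prod_of_ne_finset_one fun v hv => ?_
      rw [hgood v hv, div_self (hPne v s hs)]
    have hall := hR.mul hPprod
    have heq : (fun v => factor (W v) v s ^ m / P v s * P v s) = fun v => factor (W v) v s ^ m := by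
      funext v
      exact div_mul_cancel₀ _ (hPne v s hs)
    rw [heq] at hall
    exact (hasProd_zpow' hmK.hasProd hneK' m).unique hall

/-- Powers. If `m 1 = ∑ n_H Ind_H 1`, with `m` prime to `p`, and for every `H` in the relation
some power of `L(E/M^H, s)` with exponent prime to `p` continues, then so does such a power
of `L(E/K, s)`. -/
theorem power_of_relation (hP : Primes_S) (hC : Curves_S) (hMin : Minimal_S) (K M : Type)
    [Field K] [NumberField K]
    [Field M] [NumberField M] [Algebra K M] [IsGalois K M] (E : WeierstrassCurve K) [E.IsElliptic]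
    (T : Finset (Subgroup Gal(M/K))) (n : Subgroup Gal(M/K) → ℤ) (m p : ℕ)
    (hn : ∀ g : Gal(M/K), ∑ H ∈ T, n H * (Nat.card {x : Gal(M/K) ⧸ H // g • x = x} : ℤ) = m)
    (hm : Nat.Coprime p m)
    (hF : ∀ H ∈ T, ∃ k : ℕ, Nat.Coprime p k ∧
      PowerContinues (E.map (algebraMap K (IntermediateField.fixedField H))) k) :
    ∃ k : ℕ, Nat.Coprime p k ∧ PowerContinues E k := by
  classical
  choose! k hk hkc using hF
  refine ⟨m * ∏ H ∈ T, k H, hm.mul_right (Nat.Coprime.prod_right hk), ?_⟩
  intro W hW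
  choose V hV using fun (H : Subgroup Gal(M/K))
      (w : HeightOneSpectrum (𝓞 (IntermediateField.fixedField H))) =>
    hMin _ (E.map (algebraMap K (IntermediateField.fixedField H))) w
  obtain ⟨R, hRm, -, hR⟩ := relation hP hC K M E T n m hn W hW V hV
  have hcont : ∀ H ∈ T, ∃ f : ℂ → ℂ, MeromorphicOn f Set.univ ∧ ∀ s : ℂ, 2 < s.re →
      f s = (∏' w : HeightOneSpectrum (𝓞 (IntermediateField.fixedField H)),
        factor (V H w) w s) ^ k H := fun H hH => hkc H hH (V H) (hV H)
  choose! f hfm hfs using hcont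
  refine ⟨fun s => R s ^ (∏ H ∈ T, k H) * ∏ H ∈ T, (f H s) ^ (n H * ∏ H' ∈ T.erase H, (k H' : ℤ)),
    ?_, ?_⟩
  · refine MeromorphicOn.fun_mul (MeromorphicOn.fun_pow hRm _) ?_
    refine MeromorphicOn.fun_prod fun H hH => ?_
    exact MeromorphicOn.fun_zpow (hfm H hH) _
  · intro s hs
    rw [pow_mul]
    have h1 := hR s hs
    rw [zpow_natCast] at h1
    rw [h1, mul_pow]
    beta_reduce
    congr 1
    symm
    refine (Finset.prod_pow T (∏ H ∈ T, k H) (fun H : Subgroup Gal(M/K) =>
      (∏' w : HeightOneSpectrum (𝓞 (IntermediateField.fixedField H)),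
        factor (V H w) w s) ^ n H)).symm.trans ?_
    refine Finset.prod_congr rfl fun H hH => ?_
    rw [hfs H hH s hs, ← Finset.mul_prod_erase T k hH, ← zpow_natCast, ← zpow_natCast, ← zpow_mul,
      ← zpow_mul]
    congr 1
    push_cast
    ring

end Pool.Agent.MP_0d9be2.H15
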