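import Pool.Agent.Lib.MP_0d9be2_nt.H15.Main2

/-!
# MP_0d9be2_nt: curves with the same `j`-invariant (5.4), one curve per `j`-invariant (5.6)
-/

set_option autoImplicit false

open scoped NumberField
open IsDedekindDomain

namespace Pool.Agent.MP_0d9be2.H15

theorem eq_short {K : Type} [Field K] (W : WeierstrassCurve K) [W.IsShortNF] :
    W = short W.a₄ W.a₆ := by
  unfold short
  ext
  · exact W.a₁_of_isShortNF
  · exact W.a₂_of_isShortNF
  · exact W.a₃_of_isShortNF
  · rfl
  · rfl

/-- A short model, its discriminant and the `j`-invariant. -/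
theorem exists_short {K : Type} [Field K] [CharZero K] (E : WeierstrassCurve K) [E.IsElliptic]
    (h0 : E.j ≠ 0) (h1 : E.j ≠ 1728) :
    ∃ (A B : K) (C : WeierstrassCurve.VariableChange K), C • E = short A B ∧ A ≠ 0 ∧ B ≠ 0 ∧
      4 * A ^ 3 + 27 * B ^ 2 ≠ 0 ∧ E.j * (4 * A ^ 3 + 27 * B ^ 2) = 6912 * A ^ 3 := by
  haveI : Invertible (2 : K) := invertibleOfNonzero two_ne_zero
  haveI : Invertible (3 : K) := invertibleOfNonzero three_ne_zero
  obtain ⟨C, hC⟩ := E.exists_variableChange_isShortNF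
  haveI := hC
  set W := C • E with hW
  haveI : W.IsElliptic := by
    rw [hW]
    infer_instance
  have hj : W.j = E.j := by
    simp only [hW]
    exact E.variableChange_j C
  have hD : 4 * W.a₄ ^ 3 + 27 * W.a₆ ^ 2 ≠ 0 := by
    intro h
    have h2 := W.isUnit_Δ.ne_zero
    rw [W.Δ_of_isShortNF, h, mul_zero] at h2
    exact h2 rfl
  have hjj := W.j_of_isShortNF
  rw [hj, eq_div_iff hD] at hjj
  refine ⟨W.a₄, W.a₆, C, eq_short W, ?_, ?_, hD, hjj⟩
  · intro hA
    rw [hA] at hjj hD
    have : E.j * (4 * (0 : K) ^ 3 + 27 * W.a₆ ^ 2) = 0 := by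
      rw [hjj]
      ring
    rcases mul_eq_zero.mp this with h | h
    · exact h0 h
    · exact hD h
  · intro hB
    rw [hB] at hjj hD
    have hA : W.a₄ ^ 3 ≠ 0 := by
      intro h
      apply hD
      rw [h]
      ring
    apply h1
    have h3 : (E.j - 1728) * (4 * W.a₄ ^ 3) = 0 := by
      linear_combination hjj
    rcases mul_eq_zero.mp h3 with h | h
    · exact sub_eq_zero.mp h
    · exact absurd (mul_eq_zero.mp h) (by
        rw [not_or]
        exact ⟨by norm_num, hA⟩)

theorem sameJ : SameJ_S := by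
  intro K _ _ E E' _ _ hj h0 h1
  obtain ⟨A, B, C, hC, hA, hB, hD, hjE⟩ := exists_short E h0 h1
  obtain ⟨A', B', C', hC', hA', hB', hD', hjE'⟩ :=
    exists_short E' (by rw [← hj]; exact h0) (by rw [← hj]; exact h1)
  rw [← hj] at hjE'
  -- the key relation
  have hkey : A ^ 3 * B' ^ 2 = A' ^ 3 * B ^ 2 := by
    have h2 : A ^ 3 * (4 * A' ^ 3 + 27 * B' ^ 2) = A' ^ 3 * (4 * A ^ 3 + 27 * B ^ 2) := by
      have h3 : (6912 : K) ≠ 0 := by norm_num
      apply mul_left_cancel₀ h3
      linear_combination (4 * A ^ 3 + 27 * B ^ 2) * hjE' - (4 * A' ^ 3 + 27 * B' ^ 2) * hjE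
    have h4 : (27 : K) ≠ 0 := by norm_num
    apply mul_left_cancel₀ h4
    linear_combination h2
  refine ⟨A * B' / (A' * B), div_ne_zero (mul_ne_zero hA hB') (mul_ne_zero hA' hB),
    A, B, C, C', hC, ?_⟩
  rw [hC']
  congr 1
  · field_simp
    linear_combination -hkey
  · field_simp
    linear_combination -hkey

theorem exists_quadratic {K : Type} [Field K] [NumberField K] (d : K)
    (hd : ¬ ∃ x : K, x ^ 2 = d) :
    ∃ (F : Type) (_ : Field F) (_ : NumberField F) (_ : Algebra K F), Module.finrank K F = 2 ∧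
      ∃ x : F, x ^ 2 = algebraMap K F d := by
  obtain ⟨x, hx⟩ := IsAlgClosed.exists_pow_nat_eq (algebraMap K (AlgebraicClosure K) d)
    (n := 2) (by norm_num)
  have hint : IsIntegral K x := Algebra.IsIntegral.isIntegral x
  set F : IntermediateField K (AlgebraicClosure K) := IntermediateField.adjoin K {x} with hF
  have hxF : x ∈ F := IntermediateField.mem_adjoin_simple_self K x
  haveI : FiniteDimensional K F := IntermediateField.adjoin.finiteDimensional hint
  haveI : NumberField F := NumberField.of_module_finite K F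
  refine ⟨F, inferInstance, inferInstance, inferInstance, ?_, ⟨x, hxF⟩, Subtype.ext hx⟩
  rw [hF, IntermediateField.adjoin.finrank hint]
  have hirr : Irreducible (Polynomial.X ^ 2 - Polynomial.C d) := by
    rw [Polynomial.irreducible_iff_roots_eq_zero_of_degree_le_three]
    · rw [Multiset.eq_zero_iff_forall_notMem]
      intro y hy
      rw [Polynomial.mem_roots'] at hy
      refine hd ⟨y, ?_⟩
      have := hy.2
      simp only [Polynomial.IsRoot.def, Polynomial.eval_sub, Polynomial.eval_pow,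
        Polynomial.eval_X, Polynomial.eval_C] at this
      exact sub_eq_zero.mp this
    · rw [Polynomial.natDegree_X_pow_sub_C]
    · rw [Polynomial.natDegree_X_pow_sub_C]
      norm_num
  have hmin : minpoly K x = Polynomial.X ^ 2 - Polynomial.C d := by
    symm
    refine minpoly.eq_of_irreducible_of_monic hirr ?_ (Polynomial.monic_X_pow_sub_C _ two_ne_zero)
    simp [hx]
  rw [hmin, Polynomial.natDegree_X_pow_sub_C]

/-- ONE CURVE PER `j`-INVARIANT. -/
theorem oneCurve (hHalf : Half_S) : OneCurve_S := by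
  intro hyp K _ _ E _ h0 h1
  have hu0 : Fact (IsUnit E.j) := ⟨isUnit_iff_ne_zero.mpr h0⟩
  have hu1 : Fact (IsUnit (E.j - 1728)) := ⟨isUnit_iff_ne_zero.mpr (sub_ne_zero.mpr h1)⟩
  have hj : (WeierstrassCurve.ofJNe0Or1728 E.j).j = E.j := WeierstrassCurve.ofJNe0Or1728_j E.j
  obtain ⟨d, hd, hT⟩ := sameJ K (WeierstrassCurve.ofJNe0Or1728 E.j) E hj (by rw [hj]; exact h0)
    (by rw [hj]; exact h1)
  by_cases hsq : ∃ x : K, x ^ 2 = d
  · obtain ⟨x, hx⟩ := hsq
    exact continues_of_sq hd hx hT (hyp K E.j h0 h1)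
  · obtain ⟨F, _, _, _, h2, hx⟩ := exists_quadratic d hsq
    refine hHalf K F (WeierstrassCurve.ofJNe0Or1728 E.j) E d hd hT h2 hx hsq (hyp K E.j h0 h1) ?_
    have hmap : (WeierstrassCurve.ofJNe0Or1728 E.j).map (algebraMap K F)
        = WeierstrassCurve.ofJNe0Or1728 (algebraMap K F E.j) := by
      unfold WeierstrassCurve.ofJNe0Or1728 WeierstrassCurve.map
      simp only [map_sub, map_zero, map_mul, map_neg, map_pow, map_ofNat]
    rw [hmap]
    refine hyp F _ ?_ ?_
    · rw [Ne, map_eq_zero]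
      exact h0
    · intro h
      apply h1
      apply (algebraMap K F).injective
      rw [h, map_ofNat]

end Pool.Agent.MP_0d9be2.H15
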