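import Pool.Agent.Lib.MP_0d9be2_nt.H15.Count
import Pool.Agent.Lib.MP_0d9be2_nt.H15.Quad
import Pool.Agent.Lib.MP_0d9be2_nt.H63.Iface

/-!
# MP_0d9be2_nt, Theorem S: invariance, monotonicity and towers for the share of bad places
-/

set_option autoImplicit false

open scoped NumberField Pointwise
open IsDedekindDomain NumberField

namespace Pool.Agent.MP_0d9be2.H15

/-- Every compositum of `F` and `K₁` over `K` embeds over `F` into one of `F` and `K₁'`
over `K'`. -/
def Dom (K K₁ K' K₁' F : Type) [Field K] [Field K₁] [Field K'] [Field K₁'] [Field F]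
    [Algebra K K₁] [Algebra K F] [Algebra K' K₁'] [Algebra K' F] : Prop :=
  ∀ (L : Type) [Field L] [NumberField L] [Algebra K L] [Algebra K₁ L] [Algebra F L],
    IsCompositum K K₁ F L → ∃ (L' : Type) (_ : Field L') (_ : NumberField L')
      (_ : Algebra K' L') (_ : Algebra K₁' L') (_ : Algebra F L'),
      IsCompositum K' K₁' F L' ∧ Nonempty (L →ₐ[F] L')

section dom

variable {K K₁ K' K₁' F : Type} [Field K] [Field K₁] [Field K'] [Field K₁'] [Field F]
    [NumberField F] [Algebra K K₁] [Algebra K F] [Algebra K' K₁'] [Algebra K' F]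

theorem splitsAt_of_dom (hdom : Dom K K₁ K' K₁' F) (w : HeightOneSpectrum (𝓞 F))
    (h : SplitsAt K' K₁' F w) : SplitsAt K K₁ F w := by
  intro L _ _ _ _ _ hc W hW
  obtain ⟨L', _, _, _, _, _, hc', ⟨φ⟩⟩ := hdom L hc
  letI : Algebra L L' := φ.toRingHom.toAlgebra
  haveI : IsScalarTower F L L' := IsScalarTower.of_algebraMap_eq fun x => (φ.commutes x).symm
  haveI : FiniteDimensional F L := Module.Finite.of_restrictScalars_finite ℚ F L
  haveI : FiniteDimensional L L' := Module.Finite.of_restrictScalars_finite ℚ L L'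
  obtain ⟨⟨Q, hQp, hQW⟩⟩ := (inferInstance : Nonempty (W.asIdeal.primesOver (𝓞 L')))
  have hQ0 : Q ≠ ⊥ := Ideal.ne_bot_of_liesOver_of_ne_bot W.ne_bot Q
  have hQw : Q.LiesOver w.asIdeal := Ideal.LiesOver.trans Q W.asIdeal w.asIdeal
  obtain ⟨he, hf⟩ := h L' hc' ⟨Q, hQp, hQ0⟩ hQw
  have he' : Q.ramificationIdx (𝓞 F)
      = W.asIdeal.ramificationIdx (𝓞 F) * Q.ramificationIdx (𝓞 L) :=
    Ideal.ramificationIdx_tower W.asIdeal Q
  have hf' : Q.inertiaDeg (𝓞 F) = W.asIdeal.inertiaDeg (𝓞 F) * Q.inertiaDeg (𝓞 L) :=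
    Ideal.inertiaDeg_tower W.asIdeal Q
  change Q.ramificationIdx (𝓞 F) = 1 at he
  change Q.inertiaDeg (𝓞 F) = 1 at hf
  exact ⟨Nat.eq_one_of_mul_eq_one_right (he'.symm.trans he),
    Nat.eq_one_of_mul_eq_one_right (hf'.symm.trans hf)⟩

theorem splitsAtInf_of_dom (hdom : Dom K K₁ K' K₁' F) (w : InfinitePlace F)
    (h : SplitsAtInf K' K₁' F w) : SplitsAtInf K K₁ F w := by
  intro L _ _ _ _ _ hc W hW
  obtain ⟨L', _, _, _, _, _, hc', ⟨φ⟩⟩ := hdom L hc
  letI : Algebra L L' := φ.toRingHom.toAlgebra
  haveI : IsScalarTower F L L' := IsScalarTower.of_algebraMap_eq fun x => (φ.commutes x).symm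
  haveI : FiniteDimensional F L := Module.Finite.of_restrictScalars_finite ℚ F L
  haveI : FiniteDimensional L L' := Module.Finite.of_restrictScalars_finite ℚ L L'
  obtain ⟨Q, hQ⟩ := InfinitePlace.comap_surjective (k := L) (K := L') W
  change Q.comap (algebraMap L L') = W at hQ
  have hQF : Q.comap (algebraMap F L') = w := by
    rw [IsScalarTower.algebraMap_eq F L L', InfinitePlace.comap_comp, hQ, hW]
  have h2 := InfinitePlace.IsUnramified.comap (F := L') (K := L) (k := F) (h L' hc' Q hQF)
  rw [hQ] at h2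
  exact h2

end dom

/-! ### Monotonicity -/

theorem dom_mono (K K₁ K₂ F : Type) [Field K] [NumberField K] [Field K₁] [NumberField K₁]
    [Field K₂] [NumberField K₂] [Field F] [NumberField F] [Algebra K K₁] [Algebra K K₂]
    [Algebra K₁ K₂] [IsScalarTower K K₁ K₂] [Algebra K F] : Dom K K₁ K K₂ F := by
  intro L _ _ _ _ _ hc
  haveI := hc.1
  haveI := hc.2.1
  haveI : FiniteDimensional K₁ K₂ := Module.Finite.of_restrictScalars_finite ℚ K₁ K₂
  haveI : FiniteDimensional K K₂ := Module.Finite.of_restrictScalars_finite ℚ K K₂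
  haveI : FiniteDimensional F L := Module.Finite.of_restrictScalars_finite ℚ F L
  set Ω := AlgebraicClosure L with hΩ
  -- embed `K₂` over `K₁`
  let ψ : K₂ →ₐ[K₁] Ω := IsAlgClosed.lift
  set L₂ : IntermediateField F Ω := IntermediateField.adjoin F (Set.range ψ) with hL₂
  have hint : ∀ x : K₂, IsIntegral F (ψ x) := by
    intro x
    have h1 : IsIntegral K x := Algebra.IsIntegral.isIntegral x
    have h2 : IsIntegral K (ψ x) := h1.map (ψ.restrictScalars K)
    exact h2.tower_top
  have hLL : ∀ y : L, algebraMap L Ω y ∈ L₂ := by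
    intro y
    have hy : y ∈ Algebra.adjoin F (Set.range (algebraMap K₁ L)) := by
      rw [hc.2.2]
      exact Algebra.mem_top
    induction hy using Algebra.adjoin_induction with
    | mem x hx =>
      obtain ⟨x, rfl⟩ := hx
      have h3 : algebraMap L Ω (algebraMap K₁ L x) = ψ (algebraMap K₁ K₂ x) := by
        rw [ψ.commutes]
        rfl
      rw [h3]
      exact IntermediateField.subset_adjoin F _ ⟨_, rfl⟩
    | algebraMap r => exact L₂.algebraMap_mem r
    | add x y _ _ hx hy =>
      rw [map_add]
      exact L₂.add_mem hx hy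
    | mul x y _ _ hx hy =>
      rw [map_mul]
      exact L₂.mul_mem hx hy
  haveI : FiniteDimensional F L₂ := by
    haveI : Finite (Set.range (Module.finBasis K K₂)) := inferInstance
    have h4 : L₂ = IntermediateField.adjoin F (ψ '' (Set.range (Module.finBasis K K₂))) := by
      refine le_antisymm ?_ (IntermediateField.adjoin.mono F _ _ (Set.image_subset_range _ _))
      rw [hL₂, IntermediateField.adjoin_le_iff]
      rintro _ ⟨x, rfl⟩
      have h5 : x ∈ Submodule.span K (Set.range (Module.finBasis K K₂)) := by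
        rw [(Module.finBasis K K₂).span_eq]
        exact Submodule.mem_top
      induction h5 using Submodule.span_induction with
      | mem x hx => exact IntermediateField.subset_adjoin F _ ⟨x, hx, rfl⟩
      | zero =>
        rw [map_zero]
        exact (IntermediateField.adjoin F _).zero_mem
      | add x y _ _ hx hy =>
        rw [map_add]
        exact (IntermediateField.adjoin F _).add_mem hx hy
      | smul a x _ hx =>
        have h6 : ψ (a • x) = algebraMap F Ω (algebraMap K F a) * ψ x := by
          have h7 : ψ (algebraMap K K₂ a) = algebraMap K Ω a := (ψ.restrictScalars K).commutes a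
          rw [Algebra.smul_def, map_mul, h7, IsScalarTower.algebraMap_apply K F Ω]
        rw [h6]
        exact (IntermediateField.adjoin F _).mul_mem
          ((IntermediateField.adjoin F _).algebraMap_mem _) hx
    rw [h4]
    refine IntermediateField.finiteDimensional_adjoin ?_
    rintro _ ⟨x, _, rfl⟩
    exact hint x
  haveI : NumberField L₂ := NumberField.of_module_finite F L₂
  let ψ' : K₂ →+* L₂ := (ψ : K₂ →+* Ω).codRestrict L₂
    (fun x => IntermediateField.subset_adjoin F _ ⟨x, rfl⟩)
  letI : Algebra K₂ L₂ := ψ'.toAlgebra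
  letI : Algebra K L₂ := ((algebraMap F L₂).comp (algebraMap K F)).toAlgebra
  haveI i1 : IsScalarTower K F L₂ := IsScalarTower.of_algebraMap_eq fun _ => rfl
  haveI i2 : IsScalarTower K K₂ L₂ := IsScalarTower.of_algebraMap_eq fun x => by
    apply Subtype.ext
    change algebraMap F Ω (algebraMap K F x) = ψ (algebraMap K K₂ x)
    rw [← IsScalarTower.algebraMap_apply K F Ω]
    exact ((ψ.restrictScalars K).commutes x).symm
  refine ⟨L₂, inferInstance, inferInstance, inferInstance, inferInstance, inferInstance,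
    ⟨i2, i1, ?_⟩, ⟨?_⟩⟩
  · rw [eq_top_iff]
    have halg : ∀ x ∈ Set.range ψ, IsAlgebraic F x := by
      rintro _ ⟨x, rfl⟩
      exact (hint x).isAlgebraic
    have h8 : L₂.toSubalgebra = Algebra.adjoin F (Set.range ψ) :=
      IntermediateField.adjoin_toSubalgebra_of_isAlgebraic halg
    have h9 : ∀ z ∈ Algebra.adjoin F (Set.range ψ), ∀ hz : z ∈ L₂,
        (⟨z, hz⟩ : L₂) ∈ Algebra.adjoin F (Set.range (algebraMap K₂ L₂)) := by
      intro z hz
      induction hz using Algebra.adjoin_induction with
      | mem x hx =>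
        obtain ⟨x, rfl⟩ := hx
        intro hz
        exact Algebra.subset_adjoin ⟨x, rfl⟩
      | algebraMap r =>
        intro hz
        exact Subalgebra.algebraMap_mem _ r
      | add x y hx hy ihx ihy =>
        intro hz
        have hx' : x ∈ L₂ := by
          change x ∈ L₂.toSubalgebra
          rw [h8]
          exact hx
        have hy' : y ∈ L₂ := by
          change y ∈ L₂.toSubalgebra
          rw [h8]
          exact hy
        exact Subalgebra.add_mem _ (ihx hx') (ihy hy')
      | mul x y hx hy ihx ihy =>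
        intro hz
        have hx' : x ∈ L₂ := by
          change x ∈ L₂.toSubalgebra
          rw [h8]
          exact hx
        have hy' : y ∈ L₂ := by
          change y ∈ L₂.toSubalgebra
          rw [h8]
          exact hy
        exact Subalgebra.mul_mem _ (ihx hx') (ihy hy')
    intro z _
    refine h9 z.1 ?_ z.2
    rw [← h8]
    exact z.2
  · exact
      { toFun := fun y => ⟨algebraMap L Ω y, hLL y⟩
        map_one' := Subtype.ext (map_one _)
        map_mul' := fun a b => Subtype.ext (map_mul _ a b)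
        map_zero' := Subtype.ext (map_zero _)
        map_add' := fun a b => Subtype.ext (map_add _ a b)
        commutes' := fun r => Subtype.ext
          ((IsScalarTower.algebraMap_apply F L Ω r).symm) }

theorem shareMono : ShareMono_S := by
  classical
  intro K K₁ K₂ F _ _ _ _ _ _ _ _ _ _ _ _ _ _ _
  have hdom : Dom K K₁ K K₂ F := dom_mono K K₁ K₂ F
  constructor
  · intro v
    unfold badDeg
    refine Finset.sum_le_sum_of_subset ?_
    intro w hw
    rw [Finset.mem_filter] at hw ⊢
    exact ⟨hw.1, fun h => hw.2 (splitsAt_of_dom hdom w h)⟩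
  · intro v
    unfold badInf
    refine Nat.card_le_card_of_injective (fun w => ⟨w.1, w.2.1,
      fun h => w.2.2 (splitsAtInf_of_dom hdom w.1 h)⟩) ?_
    intro w w' hww
    have h : w.1 = w'.1 := Subtype.mk.inj hww
    exact Subtype.ext h

/-! ### Towers -/

theorem dom_tower (K K₁ F K₁' F' : Type) [Field K] [NumberField K] [Field K₁] [NumberField K₁]
    [Field F] [NumberField F] [Field K₁'] [NumberField K₁'] [Field F'] [NumberField F']
    [Algebra K K₁] [Algebra K F] [Algebra K K₁'] [Algebra K₁ K₁'] [Algebra F K₁']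
    [Algebra K F'] [Algebra F F'] [IsScalarTower K F F'] [IsGalois K K₁]
    (hc' : IsCompositum K K₁ F K₁') : Dom K K₁ F K₁' F' := by
  intro L _ _ _ _ _ hc
  haveI := hc.1
  haveI := hc.2.1
  haveI := hc'.1
  haveI := hc'.2.1
  haveI : FiniteDimensional K K₁ := Module.Finite.of_restrictScalars_finite ℚ K K₁
  letI : Algebra F L := ((algebraMap F' L).comp (algebraMap F F')).toAlgebra
  haveI : IsScalarTower F F' L := IsScalarTower.of_algebraMap_eq fun _ => rfl
  haveI : IsScalarTower K F L := IsScalarTower.of_algebraMap_eq fun x => by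
    change algebraMap K L x = algebraMap F' L (algebraMap F F' (algebraMap K F x))
    rw [← IsScalarTower.algebraMap_apply K F F', ← IsScalarTower.algebraMap_apply K F' L]
  have hχ : Nonempty (K₁' →ₐ[F] L) := by
    refine IntermediateField.nonempty_algHom_of_adjoin_splits
      (S := Set.range (algebraMap K₁ K₁')) ?_
      (IntermediateField.adjoin_eq_top_of_algebra _ _ hc'.2.2)
    rintro _ ⟨x, rfl⟩
    have hx : IsIntegral K x := Algebra.IsIntegral.isIntegral x
    have hxL : IsIntegral K (algebraMap K₁ K₁' x) := hx.algebraMap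
    refine ⟨hxL.tower_top, ?_⟩
    refine hxL.minpoly_splits_tower_top ?_
    rw [minpoly.algebraMap_eq (algebraMap K₁ K₁').injective]
    have h1 : ((minpoly K x).map (algebraMap K K₁)).Splits := Normal.splits inferInstance x
    have h2 := h1.map (algebraMap K₁ L)
    rw [Polynomial.map_map, ← IsScalarTower.algebraMap_eq K K₁ L] at h2
    exact h2
  obtain ⟨χ⟩ := hχ
  letI : Algebra K₁' L := χ.toRingHom.toAlgebra
  haveI i1 : IsScalarTower F K₁' L := IsScalarTower.of_algebraMap_eq fun x => (χ.commutes x).symm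
  refine ⟨L, inferInstance, inferInstance, inferInstance, inferInstance, inferInstance,
    ⟨i1, inferInstance, ?_⟩, ⟨AlgHom.id F' L⟩⟩
  rw [eq_top_iff, ← hc.2.2]
  refine Algebra.adjoin_mono ?_
  rintro _ ⟨x, rfl⟩
  obtain ⟨x', hx'⟩ := (AlgHom.normal_bijective K K₁ K₁
    ((χ.restrictScalars K).restrictNormal K₁)).2 x
  refine ⟨algebraMap K₁ K₁' x', ?_⟩
  have h3 := (χ.restrictScalars K).restrictNormal_commutes K₁ x'
  rw [hx'] at h3
  exact h3.symm

theorem card_inf_le (K F : Type) [Field K] [NumberField K] [Field F] [NumberField F]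
    [Algebra K F] (v : InfinitePlace K) :
    Nat.card {u : InfinitePlace F // u.comap (algebraMap K F) = v} ≤ Module.finrank K F := by
  classical
  haveI : FiniteDimensional K F := Module.Finite.of_restrictScalars_finite ℚ K F
  letI : Algebra K ℂ := v.embedding.toAlgebra
  have hex : ∀ u : {u : InfinitePlace F // u.comap (algebraMap K F) = v},
      ∃ ψ : F →ₐ[K] ℂ, InfinitePlace.mk (ψ : F →+* ℂ) = u.1 := by
    rintro ⟨u, hu⟩
    have h1 : InfinitePlace.mk (u.embedding.comp (algebraMap K F)) = InfinitePlace.mk v.embedding := by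
      rw [← InfinitePlace.comap_mk, u.mk_embedding, hu, v.mk_embedding]
    rcases InfinitePlace.mk_eq_iff.mp h1 with h2 | h2
    · refine ⟨{ u.embedding with commutes' := fun x => RingHom.congr_fun h2 x }, ?_⟩
      change InfinitePlace.mk u.embedding = u
      exact u.mk_embedding
    · refine ⟨{ ComplexEmbedding.conjugate u.embedding with
        commutes' := fun x => RingHom.congr_fun h2 x }, ?_⟩
      change InfinitePlace.mk (ComplexEmbedding.conjugate u.embedding) = u
      rw [InfinitePlace.mk_conjugate_eq]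
      exact u.mk_embedding
  choose ψ hψ using hex
  calc Nat.card {u : InfinitePlace F // u.comap (algebraMap K F) = v}
      ≤ Nat.card (F →ₐ[K] ℂ) := Nat.card_le_card_of_injective ψ (fun u u' h => by
        apply Subtype.ext
        rw [← hψ u, ← hψ u', h])
    _ = Module.finrank K F := by
        rw [Nat.card_eq_fintype_card, AlgHom.card]

theorem shareTower : ShareTower_S := by
  classical
  intro K K₁ F K₁' F' _ _ _ _ _ _ _ _ _ _ _ _ _ _ _ _ _ _ _ hc' m
  have hdom : Dom K K₁ F K₁' F' := dom_tower K K₁ F K₁' F' hc'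
  haveI : FiniteDimensional K F := Module.Finite.of_restrictScalars_finite ℚ K F
  haveI : FiniteDimensional F F' := Module.Finite.of_restrictScalars_finite ℚ F F'
  have hfin : Module.finrank K F * Module.finrank F F' = Module.finrank K F' :=
    Module.finrank_mul_finrank K F F'
  constructor
  · intro h v
    have h1 : badDeg K K₁ F' v ≤ ∑ u ∈ fib F v, (u.asIdeal.ramificationIdx (𝓞 K) *
        u.asIdeal.inertiaDeg (𝓞 K)) * badDeg F K₁' F' u := by
      unfold badDeg
      have hmaps : ∀ w ∈ (fib F' v).filter (fun w => ¬ SplitsAt K K₁ F' w),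
          HeightOneSpectrum.under (𝓞 F) w ∈ fib F v := by
        intro w hw
        rw [Finset.mem_filter, mem_fib] at hw
        rw [mem_fib]
        haveI := hw.1
        exact Ideal.LiesOver.tower_bot w.asIdeal (w.asIdeal.under (𝓞 F)) v.asIdeal
      rw [← Finset.sum_fiberwise_of_maps_to hmaps]
      refine Finset.sum_le_sum fun u hu => ?_
      rw [Finset.mul_sum]
      calc ∑ w ∈ ((fib F' v).filter (fun w => ¬ SplitsAt K K₁ F' w)).filter
            (fun w => HeightOneSpectrum.under (𝓞 F) w = u),
            w.asIdeal.ramificationIdx (𝓞 K) * w.asIdeal.inertiaDeg (𝓞 K)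
          = ∑ w ∈ ((fib F' v).filter (fun w => ¬ SplitsAt K K₁ F' w)).filter
            (fun w => HeightOneSpectrum.under (𝓞 F) w = u),
            (u.asIdeal.ramificationIdx (𝓞 K) * u.asIdeal.inertiaDeg (𝓞 K)) *
              (w.asIdeal.ramificationIdx (𝓞 F) * w.asIdeal.inertiaDeg (𝓞 F)) := by
            refine Finset.sum_congr rfl fun w hw => ?_
            rw [Finset.mem_filter] at hw
            have hwu : w.asIdeal.LiesOver u.asIdeal := (under_eq_iff w u).mp hw.2
            rw [Ideal.ramificationIdx_tower u.asIdeal w.asIdeal,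
              Ideal.inertiaDeg_tower u.asIdeal w.asIdeal]
            ring
        _ ≤ _ := by
            refine Finset.sum_le_sum_of_subset ?_
            intro w hw
            rw [Finset.mem_filter, Finset.mem_filter] at hw
            rw [Finset.mem_filter, mem_fib]
            exact ⟨(under_eq_iff w u).mp hw.2, fun hs => hw.1.2 (splitsAt_of_dom hdom w hs)⟩
    calc m * badDeg K K₁ F' v
        ≤ m * ∑ u ∈ fib F v, (u.asIdeal.ramificationIdx (𝓞 K) *
          u.asIdeal.inertiaDeg (𝓞 K)) * badDeg F K₁' F' u := Nat.mul_le_mul_left _ h1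
      _ = ∑ u ∈ fib F v, (u.asIdeal.ramificationIdx (𝓞 K) *
          u.asIdeal.inertiaDeg (𝓞 K)) * (m * badDeg F K₁' F' u) := by
          rw [Finset.mul_sum]
          refine Finset.sum_congr rfl fun u _ => ?_
          ring
      _ ≤ ∑ u ∈ fib F v, (u.asIdeal.ramificationIdx (𝓞 K) *
          u.asIdeal.inertiaDeg (𝓞 K)) * Module.finrank F F' :=
          Finset.sum_le_sum fun u _ => Nat.mul_le_mul_left _ (h u)
      _ = Module.finrank K F' := by
          rw [← Finset.sum_mul, sum_ef, hfin]
  · intro h v
    have h1 : badInf K K₁ F' v ≤ ∑ u : {u : InfinitePlace F // u.comap (algebraMap K F) = v},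
        badInf F K₁' F' u.1 := by
      unfold badInf
      rw [← Nat.card_sigma]
      refine Nat.card_le_card_of_injective (fun w => ⟨⟨w.1.comap (algebraMap F F'), ?_⟩,
        ⟨w.1, rfl, fun hs => w.2.2 (splitsAtInf_of_dom hdom w.1 hs)⟩⟩) ?_
      · rw [← InfinitePlace.comap_comp, ← IsScalarTower.algebraMap_eq K F F']
        exact w.2.1
      · intro w w' hww
        apply Subtype.ext
        have := congrArg (fun z : (Σ u : {u : InfinitePlace F // u.comap (algebraMap K F) = v},
          {w : InfinitePlace F' // w.comap (algebraMap F F') = u.1 ∧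
            ¬ SplitsAtInf F K₁' F' w}) => z.2.1) hww
        exact this
    calc m * badInf K K₁ F' v
        ≤ m * ∑ u : {u : InfinitePlace F // u.comap (algebraMap K F) = v},
          badInf F K₁' F' u.1 := Nat.mul_le_mul_left _ h1
      _ = ∑ u : {u : InfinitePlace F // u.comap (algebraMap K F) = v},
          m * badInf F K₁' F' u.1 := Finset.mul_sum _ _ _
      _ ≤ ∑ u : {u : InfinitePlace F // u.comap (algebraMap K F) = v}, Module.finrank F F' :=
          Finset.sum_le_sum fun u _ => h u.1
      _ = Nat.card {u : InfinitePlace F // u.comap (algebraMap K F) = v} *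
          Module.finrank F F' := by
          rw [Finset.sum_const, Finset.card_univ, smul_eq_mul, Nat.card_eq_fintype_card]
      _ ≤ Module.finrank K F * Module.finrank F F' := Nat.mul_le_mul_right _ (card_inf_le K F v)
      _ = Module.finrank K F' := hfin

/-! ### Invariance -/

section iso

variable {F : Type} [Field F] [NumberField F]

theorem ramificationIdx_self (w : HeightOneSpectrum (𝓞 F)) :
    w.asIdeal.ramificationIdx (𝓞 F) = 1 := by
  haveI : w.asIdeal.LiesOver w.asIdeal := ⟨by simp [Ideal.under]⟩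
  have h1 := Ideal.ramificationIdx_tower (R := 𝓞 F) (S := 𝓞 F) (T := 𝓞 F) w.asIdeal w.asIdeal
  have h2 : 0 < w.asIdeal.ramificationIdx (𝓞 F) := Ideal.ramificationIdx_pos _ _
  exact (Nat.eq_of_mul_eq_mul_left h2 (by rw [mul_one]; exact h1)).symm

theorem inertiaDeg_self (w : HeightOneSpectrum (𝓞 F)) :
    w.asIdeal.inertiaDeg (𝓞 F) = 1 := by
  haveI : w.asIdeal.LiesOver w.asIdeal := ⟨by simp [Ideal.under]⟩
  have h1 := Ideal.inertiaDeg_tower (R := 𝓞 F) (S := 𝓞 F) (T := 𝓞 F) w.asIdeal w.asIdeal
  have h2 : 0 < w.asIdeal.inertiaDeg (𝓞 F) := Ideal.inertiaDeg_pos _ _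
  exact (Nat.eq_of_mul_eq_mul_left h2 (by rw [mul_one]; exact h1)).symm

end iso

theorem iso_le (K K₁ F F' : Type) [Field K] [NumberField K] [Field K₁] [NumberField K₁] [Field F]
    [NumberField F] [Field F'] [NumberField F'] [Algebra K K₁] [Algebra K F] [Algebra K F']
    (e : F ≃ₐ[K] F') :
    (∀ v : HeightOneSpectrum (𝓞 K), badDeg K K₁ F' v ≤ badDeg K K₁ F v) ∧
    (∀ v : InfinitePlace K, badInf K K₁ F' v ≤ badInf K K₁ F v) := by
  classical
  letI : Algebra F F' := (e : F →+* F').toAlgebra
  haveI : IsScalarTower K F F' := IsScalarTower.of_algebraMap_eq fun x => (e.commutes x).symm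
  letI : Algebra F' F := (e.symm : F' →+* F).toAlgebra
  haveI : IsScalarTower F F' F := IsScalarTower.of_algebraMap_eq fun x =>
    (e.symm_apply_apply x).symm
  haveI : IsScalarTower (𝓞 F) (𝓞 F') (𝓞 F) := IsScalarTower.of_algebraMap_eq fun x => by
    apply NumberField.RingOfIntegers.ext
    exact (e.symm_apply_apply _).symm
  haveI : FiniteDimensional F' F := Module.Finite.of_restrictScalars_finite ℚ F' F
  haveI : FiniteDimensional F F' := Module.Finite.of_restrictScalars_finite ℚ F F'
  have hsurj : ∀ x : 𝓞 F', ∃ y : 𝓞 F, algebraMap (𝓞 F) (𝓞 F') y = x := by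
    intro x
    have h1 : IsIntegral ℤ (e.symm (x : F')) := by
      have h2 : IsIntegral ℤ (x : F') := x.isIntegral_coe
      exact h2.map ((e.symm : F' ≃+* F) : F' →+* F).toIntAlgHom
    refine ⟨⟨e.symm (x : F'), h1⟩, ?_⟩
    apply NumberField.RingOfIntegers.ext
    exact e.apply_symm_apply _
  -- a compositum of `F'` and `K₁` is one of `F` and `K₁`
  have hcomp : ∀ (L : Type) [Field L] [NumberField L] [Algebra K L] [Algebra K₁ L] [Algebra F' L]
      [Algebra F L] [IsScalarTower F F' L], IsCompositum K K₁ F' L → IsCompositum K K₁ F L := by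
    intro L _ _ _ _ _ _ _ hc
    haveI := hc.2.1
    refine ⟨hc.1, IsScalarTower.of_algebraMap_eq fun x => ?_, ?_⟩
    · rw [IsScalarTower.algebraMap_apply F F' L, ← IsScalarTower.algebraMap_apply K F F',
        ← IsScalarTower.algebraMap_apply K F' L]
    · rw [eq_top_iff]
      intro y _
      have hy : y ∈ Algebra.adjoin F' (Set.range (algebraMap K₁ L)) := by
        rw [hc.2.2]
        exact Algebra.mem_top
      induction hy using Algebra.adjoin_induction with
      | mem x hx => exact Algebra.subset_adjoin hx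
      | algebraMap r =>
        have h3 : algebraMap F' L r = algebraMap F L (e.symm r) := by
          rw [IsScalarTower.algebraMap_apply F F' L]
          congr 1
          exact (e.apply_symm_apply r).symm
        rw [h3]
        exact Subalgebra.algebraMap_mem _ _
      | add x y _ _ hx hy => exact Subalgebra.add_mem _ (hx Algebra.mem_top) (hy Algebra.mem_top)
      | mul x y _ _ hx hy => exact Subalgebra.mul_mem _ (hx Algebra.mem_top) (hy Algebra.mem_top)
  constructor
  · intro v
    have hef : ∀ w' : HeightOneSpectrum (𝓞 F'), w'.asIdeal.ramificationIdx (𝓞 F) = 1 ∧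
        w'.asIdeal.inertiaDeg (𝓞 F) = 1 := by
      intro w'
      obtain ⟨⟨Q, hQp, hQW⟩⟩ := (inferInstance : Nonempty (w'.asIdeal.primesOver (𝓞 F)))
      have hQ0 : Q ≠ ⊥ := Ideal.ne_bot_of_liesOver_of_ne_bot w'.ne_bot Q
      have h1 : Q.ramificationIdx (𝓞 F)
          = w'.asIdeal.ramificationIdx (𝓞 F) * Q.ramificationIdx (𝓞 F') :=
        Ideal.ramificationIdx_tower w'.asIdeal Q
      have h2 : Q.inertiaDeg (𝓞 F) = w'.asIdeal.inertiaDeg (𝓞 F) * Q.inertiaDeg (𝓞 F') :=
        Ideal.inertiaDeg_tower w'.asIdeal Q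
      have h3 : Q.ramificationIdx (𝓞 F) = 1 := ramificationIdx_self ⟨Q, hQp, hQ0⟩
      have h4 : Q.inertiaDeg (𝓞 F) = 1 := inertiaDeg_self ⟨Q, hQp, hQ0⟩
      exact ⟨Nat.eq_one_of_mul_eq_one_right (h1.symm.trans h3),
        Nat.eq_one_of_mul_eq_one_right (h2.symm.trans h4)⟩
    have hsplit : ∀ w' : HeightOneSpectrum (𝓞 F'),
        SplitsAt K K₁ F (HeightOneSpectrum.under (𝓞 F) w') → SplitsAt K K₁ F' w' := by
      intro w' h L _ _ _ _ _ hc W hW
      letI : Algebra F L := ((algebraMap F' L).comp (algebraMap F F')).toAlgebra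
      haveI : IsScalarTower F F' L := IsScalarTower.of_algebraMap_eq fun _ => rfl
      haveI hw : w'.asIdeal.LiesOver (HeightOneSpectrum.under (𝓞 F) w').asIdeal := ⟨rfl⟩
      obtain ⟨h1, h2⟩ := h L (hcomp L hc) W
        (Ideal.LiesOver.trans W.asIdeal w'.asIdeal (HeightOneSpectrum.under (𝓞 F) w').asIdeal)
      haveI : FiniteDimensional F' L := Module.Finite.of_restrictScalars_finite ℚ F' L
      have h3 : W.asIdeal.ramificationIdx (𝓞 F)
          = w'.asIdeal.ramificationIdx (𝓞 F) * W.asIdeal.ramificationIdx (𝓞 F') :=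
        Ideal.ramificationIdx_tower w'.asIdeal W.asIdeal
      have h4 : W.asIdeal.inertiaDeg (𝓞 F)
          = w'.asIdeal.inertiaDeg (𝓞 F) * W.asIdeal.inertiaDeg (𝓞 F') :=
        Ideal.inertiaDeg_tower w'.asIdeal W.asIdeal
      exact ⟨Nat.eq_one_of_mul_eq_one_left (h3.symm.trans h1),
        Nat.eq_one_of_mul_eq_one_left (h4.symm.trans h2)⟩
    have hinj : Function.Injective (fun w' : HeightOneSpectrum (𝓞 F') =>
        HeightOneSpectrum.under (𝓞 F) w') := by
      intro w' w'' h
      apply HeightOneSpectrum.ext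
      ext x
      obtain ⟨y, rfl⟩ := hsurj x
      have h5 := congrArg HeightOneSpectrum.asIdeal h
      have h6 : y ∈ (HeightOneSpectrum.under (𝓞 F) w').asIdeal ↔
          y ∈ (HeightOneSpectrum.under (𝓞 F) w'').asIdeal := by
        rw [show (HeightOneSpectrum.under (𝓞 F) w').asIdeal
          = (HeightOneSpectrum.under (𝓞 F) w'').asIdeal from h5]
      exact h6
    unfold badDeg
    calc ∑ w' ∈ (fib F' v).filter (fun w => ¬ SplitsAt K K₁ F' w),
          w'.asIdeal.ramificationIdx (𝓞 K) * w'.asIdeal.inertiaDeg (𝓞 K)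
        = ∑ w' ∈ (fib F' v).filter (fun w => ¬ SplitsAt K K₁ F' w),
          (HeightOneSpectrum.under (𝓞 F) w').asIdeal.ramificationIdx (𝓞 K) *
            (HeightOneSpectrum.under (𝓞 F) w').asIdeal.inertiaDeg (𝓞 K) := by
          refine Finset.sum_congr rfl fun w' _ => ?_
          haveI hw : w'.asIdeal.LiesOver (HeightOneSpectrum.under (𝓞 F) w').asIdeal := ⟨rfl⟩
          rw [Ideal.ramificationIdx_tower (HeightOneSpectrum.under (𝓞 F) w').asIdeal w'.asIdeal,
            Ideal.inertiaDeg_tower (HeightOneSpectrum.under (𝓞 F) w').asIdeal w'.asIdeal,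
            (hef w').1, (hef w').2, mul_one, mul_one]
      _ = ∑ w ∈ ((fib F' v).filter (fun w => ¬ SplitsAt K K₁ F' w)).image
            (fun w' => HeightOneSpectrum.under (𝓞 F) w'),
            w.asIdeal.ramificationIdx (𝓞 K) * w.asIdeal.inertiaDeg (𝓞 K) :=
          (Finset.sum_image (f := fun w : HeightOneSpectrum (𝓞 F) =>
            w.asIdeal.ramificationIdx (𝓞 K) * w.asIdeal.inertiaDeg (𝓞 K))
            (g := fun w' : HeightOneSpectrum (𝓞 F') => HeightOneSpectrum.under (𝓞 F) w')
            (fun a _ b _ h => hinj h)).symm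
      _ ≤ _ := by
          refine Finset.sum_le_sum_of_subset ?_
          intro w hw
          rw [Finset.mem_image] at hw
          obtain ⟨w', hw', rfl⟩ := hw
          rw [Finset.mem_filter, mem_fib] at hw'
          rw [Finset.mem_filter, mem_fib]
          haveI := hw'.1
          exact ⟨Ideal.LiesOver.tower_bot w'.asIdeal (w'.asIdeal.under (𝓞 F)) v.asIdeal,
            fun hs => hw'.2 (hsplit w' hs)⟩
  · intro v
    unfold badInf
    refine Nat.card_le_card_of_injective (fun w => ⟨w.1.comap (algebraMap F F'), ?_, ?_⟩) ?_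
    · rw [← InfinitePlace.comap_comp, ← IsScalarTower.algebraMap_eq K F F']
      exact w.2.1
    · intro hs
      apply w.2.2
      intro L _ _ _ _ _ hc W hW
      letI : Algebra F L := ((algebraMap F' L).comp (algebraMap F F')).toAlgebra
      haveI : IsScalarTower F F' L := IsScalarTower.of_algebraMap_eq fun _ => rfl
      have h1 := hs L (hcomp L hc) W (by
        rw [IsScalarTower.algebraMap_eq F F' L, InfinitePlace.comap_comp, hW])
      exact InfinitePlace.IsUnramified.of_restrictScalars F' h1
    · intro w w' hww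
      have h : w.1.comap (algebraMap F F') = w'.1.comap (algebraMap F F') := Subtype.mk.inj hww
      apply Subtype.ext
      ext x
      have h2 := congrArg (fun z : InfinitePlace F => z (e.symm x)) h
      have h3 : algebraMap F F' (e.symm x) = x := e.apply_symm_apply x
      simp only [InfinitePlace.comap_apply, h3] at h2
      exact h2

theorem shareIso : ShareIso_S := by
  intro K K₁ F F' _ _ _ _ _ _ _ _ _ _ _ e
  exact ⟨fun v => le_antisymm ((iso_le K K₁ F F' e).1 v) ((iso_le K K₁ F' F e.symm).1 v),
    fun v => le_antisymm ((iso_le K K₁ F F' e).2 v) ((iso_le K K₁ F' F e.symm).2 v)⟩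

end Pool.Agent.MP_0d9be2.H15
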